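import Pool.Agent.H40.ISH.Defs

/-!
Project ISH: elementary facts about sites, bonds, boundaries and energies.
-/

set_option linter.unusedVariables false

namespace Pool.ISH

open MeasureTheory Filter Topology
open scoped Classical Pointwise

theorem mem_Qb {x y : Site} {r : ℕ} : y ∈ Qb x r ↔ ∀ i, |y i - x i| ≤ (r : ℤ) := by
  simp only [Qb, Finset.mem_Icc, Pi.le_def, abs_le]
  constructor
  · rintro ⟨h1, h2⟩ i
    have := h1 i
    have := h2 i
    constructor <;> linarith
  · intro h
    exact ⟨fun i => by linarith [(h i).1], fun i => by linarith [(h i).2]⟩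

theorem mem_Vb {N : ℕ} {y : Site} : y ∈ Vb N ↔ ∀ i, |y i| ≤ (N : ℤ) := by
  unfold Vb
  rw [mem_Qb]
  simp

theorem card_Qb (x : Site) (r : ℕ) : (Qb x r).card = (2 * r + 1) ^ 3 := by
  unfold Qb
  rw [Pi.card_Icc]
  simp only [Int.card_Icc]
  have : ∀ i : Fin 3, (x i + (r : ℤ) + 1 - (x i - (r : ℤ))).toNat = 2 * r + 1 := by
    intro i
    omega
  simp [this]

theorem card_Vb (N : ℕ) : (Vb N).card = (2 * N + 1) ^ 3 := card_Qb 0 N

theorem self_mem_Qb (x : Site) (r : ℕ) : x ∈ Qb x r := by
  rw [mem_Qb]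
  intro i
  simp

theorem Qb_mono (x : Site) {r s : ℕ} (h : r ≤ s) : Qb x r ⊆ Qb x s := by
  intro y hy
  rw [mem_Qb] at *
  intro i
  exact (hy i).trans (by exact_mod_cast h)

theorem mem_cube {z x : Site} {a : ℕ} : x ∈ cube z a ↔ ∀ i, z i ≤ x i ∧ x i < z i + a := by
  simp only [cube, Finset.mem_Icc, Pi.le_def]
  constructor
  · rintro ⟨h1, h2⟩ i
    have := h1 i
    have := h2 i
    constructor <;> linarith
  · intro h
    exact ⟨fun i => (h i).1, fun i => by linarith [(h i).2]⟩

theorem card_cube (z : Site) (a : ℕ) : (cube z a).card = a ^ 3 := by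
  unfold cube
  rw [Pi.card_Icc]
  simp only [Int.card_Icc]
  simp

theorem mem_BQ {x : Site} {r : ℕ} {b : Bond} : b ∈ BQ x r ↔ lo b ∈ Qb x r ∧ hi b ∈ Qb x r := by
  simp [BQ, lo]

theorem mem_BC {z : Site} {a : ℕ} {b : Bond} : b ∈ BC z a ↔ lo b ∈ cube z a ∧ hi b ∈ cube z a := by
  simp [BC, lo]

theorem ev_same (i : Fin 3) : ev i i = 1 := by simp [ev]

theorem ev_ne {i j : Fin 3} (h : j ≠ i) : ev i j = 0 := by simp [ev, h]

theorem ev_le (i j : Fin 3) : 0 ≤ ev i j ∧ ev i j ≤ 1 := by
  by_cases h : j = i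
  · subst h
    rw [ev_same]
    omega
  · rw [ev_ne h]
    omega

theorem hi_apply (b : Bond) (j : Fin 3) : hi b j = lo b j + ev b.2 j := rfl

theorem hi_same (b : Bond) : hi b b.2 = lo b b.2 + 1 := by rw [hi_apply, ev_same]

theorem hi_ne {b : Bond} {j : Fin 3} (h : j ≠ b.2) : hi b j = lo b j := by
  rw [hi_apply, ev_ne h, add_zero]

theorem hi_ne_lo (b : Bond) : hi b ≠ lo b := by
  intro h
  have := congrFun h b.2
  rw [hi_same] at this
  omega

theorem bond_ext {b c : Bond} (h1 : lo b = lo c) (h2 : hi b = hi c) : b = c := by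
  obtain ⟨x, i⟩ := b
  obtain ⟨y, j⟩ := c
  simp only [lo] at h1
  subst h1
  by_cases h : i = j
  · rw [h]
  · have h3 := congrFun h2 i
    simp only [hi, Pi.add_apply] at h3
    rw [ev_same, ev_ne h] at h3
    omega

theorem mem_BV {N : ℕ} {b : Bond} : b ∈ BV N ↔ lo b ∈ Vb N ∨ hi b ∈ Vb N := by
  simp only [BV, Finset.mem_filter, Finset.mem_product, Finset.mem_univ, and_true]
  constructor
  · exact fun h => h.2
  · intro h
    refine ⟨?_, h⟩
    rw [mem_Qb]
    intro i
    have h1 := ev_le b.2 i
    simp only [Pi.zero_apply, sub_zero]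
    rcases h with h | h
    · have h2 := mem_Vb.1 h i
      change |lo b i| ≤ _
      push_cast
      linarith
    · have h2 := mem_Vb.1 h i
      rw [hi_apply] at h2
      change |lo b i| ≤ _
      rw [abs_le] at *
      push_cast
      constructor <;> linarith [h2.1, h2.2]

theorem card_BQ_le (x : Site) (r : ℕ) : (BQ x r).card ≤ 3 * (2 * r + 1) ^ 3 := by
  unfold BQ
  refine (Finset.card_filter_le _ _).trans ?_
  rw [Finset.card_product, card_Qb]
  simp [mul_comm]

theorem card_BV_le (N : ℕ) : (BV N).card ≤ 3 * (2 * N + 3) ^ 3 := by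
  unfold BV
  refine (Finset.card_filter_le _ _).trans ?_
  rw [Finset.card_product, card_Qb]
  simp only [Finset.card_univ, Fintype.card_fin]
  rw [mul_comm]
  ring_nf
  exact le_refl _

/-! ### boundaries -/

theorem mem_bd {P : Set Site} {b : Bond} : b ∈ bd P ↔ ¬ (lo b ∈ P ↔ hi b ∈ P) := Iff.rfl

theorem bd_compl (P : Set Site) : bd Pᶜ = bd P := by
  ext b
  simp only [mem_bd, Set.mem_compl_iff]
  tauto

theorem bd_symmDiff (P F : Set Site) : bd (symmDiff P F) = symmDiff (bd P) (bd F) := by
  ext b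
  simp only [mem_bd, Set.mem_symmDiff]
  tauto

theorem bd_empty : bd (∅ : Set Site) = ∅ := by
  ext b
  simp [mem_bd]

theorem bd_finite (F : Finset Site) : (bd (F : Set Site)).Finite := by
  have h : bd (F : Set Site) ⊆
      (((F ×ˢ (Finset.univ : Finset (Fin 3))) ∪
        (F ×ˢ (Finset.univ : Finset (Fin 3))).image (fun b => (b.1 - ev b.2, b.2)) :
          Finset Bond) : Set Bond) := by
    intro b hb
    rw [mem_bd] at hb
    simp only [Finset.coe_union, Set.mem_union, Finset.mem_coe, Finset.mem_product,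
      Finset.mem_univ, and_true, Finset.mem_image, Prod.exists]
    by_cases h : lo b ∈ F
    · exact Or.inl h
    · right
      refine ⟨hi b, b.2, ?_, ?_⟩
      · by_contra h2
        exact hb ⟨fun h3 => absurd h3 h, fun h3 => absurd h3 h2⟩
      · simp [hi]
  exact (Finset.finite_toSet _).subset h

/-- boundary bonds of subsets of the box have an end in the box -/
theorem bd_subset_BV {N : ℕ} {F : Finset Site} (h : F ⊆ Vb N) :
    bd (F : Set Site) ⊆ (BV N : Set Bond) := by
  intro b hb
  rw [mem_bd] at hb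
  rw [Finset.mem_coe, mem_BV]
  by_cases h1 : lo b ∈ (F : Set Site)
  · exact Or.inl (h h1)
  · right
    by_contra h2
    exact hb ⟨fun h3 => absurd h3 h1, fun h3 => absurd (h h3) h2⟩

/-- a finite set of sites is determined by its boundary -/
theorem eq_of_bd_eq {F F' : Finset Site} (h : bd (F : Set Site) = bd (F' : Set Site)) :
    F = F' := by
  have h1 : bd (symmDiff (F : Set Site) (F' : Set Site)) = ∅ := by
    rw [bd_symmDiff, h]
    simp
  have key : ∀ (n : ℕ) (x : Site), x ∈ symmDiff (F : Set Site) (F' : Set Site) →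
      (fun i => x i + n * ev 0 i) ∈ symmDiff (F : Set Site) (F' : Set Site) := by
    intro n x hx
    induction n with
    | zero => simpa using hx
    | succ n ih =>
      have h2 : ((fun i => x i + n * ev 0 i, 0) : Bond) ∉
          bd (symmDiff (F : Set Site) (F' : Set Site)) := by rw [h1]; simp
      rw [mem_bd, not_not] at h2
      have h3 : (fun i => x i + ((n + 1 : ℕ) : ℤ) * ev 0 i) =
          hi ((fun i => x i + n * ev 0 i, 0) : Bond) := by
        funext i
        simp only [hi, Pi.add_apply]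
        push_cast
        ring
      rw [h3]
      exact h2.1 ih
  by_contra hne
  have h2 : (symmDiff (F : Set Site) (F' : Set Site)).Nonempty := by
    rw [Set.nonempty_iff_ne_empty]
    intro h3
    apply hne
    have h4 : (F : Set Site) = F' := by
      exact (symmDiff_eq_bot (a := (F : Set Site)) (b := (F' : Set Site))).1 h3
    exact_mod_cast h4
  obtain ⟨x, hx⟩ := h2
  have hfin : (symmDiff (F : Set Site) (F' : Set Site)).Finite := by
    have : symmDiff (F : Set Site) (F' : Set Site) ⊆ ((F ∪ F' : Finset Site) : Set Site) := by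
      intro y hy
      rw [Set.mem_symmDiff] at hy
      simp only [Finset.coe_union, Set.mem_union]
      tauto
    exact (Finset.finite_toSet _).subset this
  have hinf : (Set.range (fun n : ℕ => (fun i => x i + n * ev 0 i : Site))).Infinite := by
    refine Set.infinite_range_of_injective ?_
    intro a b hab
    have h5 := congrFun hab 0
    simp only [ev_same] at h5
    have : (a : ℤ) = b := by linarith
    exact_mod_cast this
  refine hinf (hfin.subset ?_)
  rintro _ ⟨n, rfl⟩
  exact key n x hx

/-! ### flips -/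

theorem Pl_symmDiff {N : ℕ} {A F : Finset Site} (hF : F ⊆ Vb N) :
    Pl N (symmDiff A F) = symmDiff (Pl N A) (F : Set Site) := by
  ext x
  simp only [Pl, Set.mem_ofPred_eq, Set.mem_symmDiff, Finset.mem_symmDiff, Finset.mem_coe]
  have := @hF x
  tauto

theorem symmDiff_subset_Vb {N : ℕ} {A F : Finset Site} (hA : A ⊆ Vb N) (hF : F ⊆ Vb N) :
    symmDiff A F ⊆ Vb N := by
  intro x hx
  rw [Finset.mem_symmDiff] at hx
  rcases hx with h | h
  · exact hA h.1
  · exact hF h.1

/-- the change of the energy when the spins in `F` are flipped -/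
theorem en_flip {N : ℕ} {A F : Finset Site} (hF : F ⊆ Vb N) :
    en N (symmDiff A F) +
      ((BV N).filter (fun b => b ∈ bd (F : Set Site) ∧ b ∈ bd (Pl N A))).card =
    en N A + ((BV N).filter (fun b => b ∈ bd (F : Set Site) ∧ b ∉ bd (Pl N A))).card := by
  unfold en
  rw [Pl_symmDiff hF, bd_symmDiff]
  simp only [Set.mem_symmDiff]
  rw [← Finset.card_union_of_disjoint, ← Finset.card_union_of_disjoint]
  · congr 1
    ext b
    simp only [Finset.mem_union, Finset.mem_filter]
    by_cases h1 : b ∈ BV N <;> by_cases h2 : b ∈ bd (F : Set Site) <;>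
      by_cases h3 : b ∈ bd (Pl N A) <;> simp [h1, h2, h3]
  · rw [Finset.disjoint_left]
    intro b
    simp only [Finset.mem_filter]
    tauto
  · rw [Finset.disjoint_left]
    intro b
    simp only [Finset.mem_filter]
    tauto

/-- a flip costs at most the boundary of the flipped set -/
theorem en_flip_le {N : ℕ} {A F : Finset Site} (hF : F ⊆ Vb N) :
    en N (symmDiff A F) ≤ en N A + (bd (F : Set Site)).ncard := by
  have h := en_flip (A := A) hF
  have h1 : ((BV N).filter (fun b => b ∈ bd (F : Set Site) ∧ b ∉ bd (Pl N A))).card ≤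
      (bd (F : Set Site)).ncard := by
    rw [Set.ncard_eq_toFinset_card _ (bd_finite F)]
    refine Finset.card_le_card ?_
    intro b hb
    simp only [Finset.mem_filter] at hb
    simpa using hb.2.1
  omega

/-! ### touching bonds -/

theorem Nr1.symm {x y : Site} (h : Nr1 x y) : Nr1 y x := fun i => by
  rw [abs_sub_comm]; exact h i

theorem Nr1.refl (x : Site) : Nr1 x x := fun i => by simp

theorem Tch.symm {b c : Bond} (h : Tch b c) : Tch c b :=
  ⟨h.1.symm, h.2.2.1.symm, h.2.1.symm, h.2.2.2.symm⟩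

theorem Nr1_lo_hi (b : Bond) : Nr1 (lo b) (hi b) := fun i => by
  rw [hi_apply]
  have := ev_le b.2 i
  rw [abs_le]
  constructor <;> linarith

theorem Tch.refl (b : Bond) : Tch b b :=
  ⟨Nr1.refl _, Nr1_lo_hi b, (Nr1_lo_hi b).symm, Nr1.refl _⟩

/-- the bonds near `b` (they include all bonds touching `b`) -/
noncomputable def nbh (b : Bond) : Finset Bond := (Qb (lo b) 1) ×ˢ (Finset.univ : Finset (Fin 3))

theorem card_nbh (b : Bond) : (nbh b).card = 81 := by
  unfold nbh
  rw [Finset.card_product, card_Qb]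
  simp

theorem Tch.mem_nbh {b c : Bond} (h : Tch b c) : c ∈ nbh b := by
  simp only [nbh, Finset.mem_product, Finset.mem_univ, and_true, mem_Qb]
  intro i
  have := h.1 i
  rw [abs_sub_comm]
  exact this

theorem Rch.symm {S : Set Bond} {b c : Bond} (h : Rch S b c) (hb : b ∈ S) : Rch S c b := by
  induction h with
  | refl => exact Relation.ReflTransGen.refl
  | @tail d e h1 h2 ih =>
    have hd : d ∈ S := by
      rcases Relation.ReflTransGen.cases_tail h1 with h3 | ⟨f, _, h4⟩
      · rw [h3]; exact hb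
      · exact h4.2
    exact Relation.ReflTransGen.head ⟨h2.1.symm, hd⟩ ih

theorem Rch.trans {S : Set Bond} {b c d : Bond} (h : Rch S b c) (h' : Rch S c d) : Rch S b d :=
  Relation.ReflTransGen.trans h h'

theorem Rch.mono {S S' : Set Bond} (h : S ⊆ S') {b c : Bond} (h' : Rch S b c) : Rch S' b c :=
  (Relation.ReflTransGen.mono (r := fun b c => Tch b c ∧ c ∈ S)
    (p := fun b c => Tch b c ∧ c ∈ S') (fun _ _ h2 => ⟨h2.1, h h2.2⟩)) _ _ h'

theorem Rch.mem {S : Set Bond} {b c : Bond} (h : Rch S b c) (hb : b ∈ S) : c ∈ S := by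
  rcases Relation.ReflTransGen.cases_tail h with h3 | ⟨f, _, h4⟩
  · rw [h3]; exact hb
  · exact h4.2

theorem wt_pos (β : ℝ) (N : ℕ) (A : Finset Site) : 0 < wt β N A := Real.exp_pos _

end Pool.ISH
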