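import Pool.Agent.H40.ISH.Stmts

/-!
Project ISH, module DAT: a configuration with a thin side and pure cubes can be changed into a
configuration with the same magnetisation and much less energy.
-/

set_option linter.unusedVariables false

namespace Pool.ISH

open MeasureTheory Filter Topology
open scoped Classical Pointwise

theorem Cnn_compl {D : Set Site} (h : Cnn D) : Cnn Dᶜ := by
  refine ⟨?_, ?_⟩
  · rw [bd_compl]; exact h.conn
  · rw [bd_compl]; exact h.unb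

theorem sf_filter (D : Set Site) (x : Site) {r r' : ℕ} (h : r ≤ r') :
    sf (((Qb x r').filter (fun y => y ∈ D) : Finset Site) : Set Site) x r = sf D x r := by
  unfold sf
  congr 1
  refine Finset.filter_congr fun b hb => ?_
  rw [mem_BQ] at hb
  have h1 := Qb_mono x h hb.1
  have h2 := Qb_mono x h hb.2
  simp [mem_bd, h1, h2]

theorem cnt_mono (D : Set Site) {x y : Site} {r s : ℕ} (h : Qb x r ⊆ Qb y s) :
    cnt D x r ≤ cnt D y s :=
  Finset.card_le_card (Finset.filter_subset_filter _ h)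

theorem dat_pow (n : ℕ) (hn : 1 ≤ n) : ∃ k : ℕ, n ≤ 2 ^ k ∧ 2 ^ k < 2 * n := by
  have h : ∃ k : ℕ, n ≤ 2 ^ k := ⟨n, Nat.lt_two_pow_self.le⟩
  refine ⟨Nat.find h, Nat.find_spec h, ?_⟩
  rcases Nat.eq_zero_or_pos (Nat.find h) with h0 | h0
  · rw [h0]
    omega
  · have h1 := Nat.find_min h (m := Nat.find h - 1) (by omega)
    have h2 : 2 ^ (Nat.find h) = 2 * 2 ^ (Nat.find h - 1) := by
      rw [← pow_succ']
      congr 1
      omega
    omega

theorem Lg_tendsto : Tendsto (fun N : ℕ => Lg N) atTop atTop := by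
  have h : Tendsto (fun N : ℕ => Nat.log 2 N) atTop atTop := by
    refine tendsto_atTop.2 fun b => ?_
    filter_upwards [eventually_ge_atTop (2 ^ b)] with N hN
    exact Nat.le_log_of_pow_le (by norm_num) hN
  exact tendsto_atTop_mono (fun N => Nat.le_succ _) h

theorem dat_num1 {q a S : ℕ} (hq : 1000 ≤ q) (ha : 1000 * a ≤ 2 * q * q + 1000)
    (h5 : q ^ 3 * q ≤ 2 * S) : 16 * a ^ 2 ≤ S := by
  have h1 : 250 * a ≤ q ^ 2 := by nlinarith
  have h2 : (250 * a) ^ 2 ≤ (q ^ 2) ^ 2 := Nat.pow_le_pow_left h1 2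
  have h3 : (q ^ 2) ^ 2 = q ^ 3 * q := by ring
  have h4 : (250 * a) ^ 2 = 62500 * a ^ 2 := by ring
  omega

theorem dat_num2 {q a S : ℕ} (hq : 1000 ≤ q) (ha : 1000 * a ≤ 2 * 1152 * q + 1000)
    (h5 : 1152 ^ 3 * q ^ 2 ≤ 2 * 10 ^ 6 * S) : 16 * a ^ 2 ≤ S := by
  have h1 : 2 * a ≤ 5 * q := by omega
  have h2 : (2 * a) ^ 2 ≤ (5 * q) ^ 2 := Nat.pow_le_pow_left h1 2
  have h3 : (5 * q) ^ 2 = 25 * q ^ 2 := by ring
  have h4 : (2 * a) ^ 2 = 4 * a ^ 2 := by ring
  omega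

theorem dat_num3 {q a L : ℕ} (hq : 1000 ≤ q) (ha : 1000 * a ≤ 2 * q * q + 1000)
    (h5 : q ≤ 128 * L) : a ≤ 128 ^ 2 * L ^ 2 := by
  have h1 : 250 * a ≤ q ^ 2 := by nlinarith
  have h2 : q ^ 2 ≤ (128 * L) ^ 2 := Nat.pow_le_pow_left h5 2
  have h4 : (128 * L) ^ 2 = 128 ^ 2 * L ^ 2 := by ring
  omega

theorem dat_num4 {q a : ℕ} (hq : 1000 ≤ q) (ha : 1000 * a ≤ 2 * 1152 * q + 1000) :
    2 * a ≤ 5 * q := by
  omega

theorem lt_pow_Lg (N : ℕ) : N < 2 ^ Lg N := Nat.lt_pow_succ_log_self (by norm_num) N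

theorem Lg_sq_small (ε : ℝ) (hε : 0 < ε) : ∀ᶠ N : ℕ in atTop, (Lg N : ℝ) ^ 2 ≤ ε * N := by
  have h1 : Tendsto (fun n : ℕ => ((n : ℝ) ^ 2) / 2 ^ n) atTop (𝓝 0) := by
    have := tendsto_pow_const_div_const_pow_of_one_lt 2 (show (1 : ℝ) < 2 by norm_num)
    exact this
  have h2 := h1.comp Lg_tendsto
  have h3 : ∀ᶠ N : ℕ in atTop, ((Lg N : ℝ) ^ 2) / 2 ^ Lg N < ε / 2 :=
    h2.eventually (gt_mem_nhds (by positivity))
  filter_upwards [h3, eventually_ge_atTop 1] with N hN h1N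
  have h4 : (2 : ℝ) ^ Lg N ≤ 2 * N := by
    have : 2 ^ Lg N ≤ 2 * N := by
      unfold Lg
      rw [pow_succ]
      have := Nat.pow_log_le_self 2 (x := N) (by omega)
      omega
    exact_mod_cast this
  have h5 : (0 : ℝ) < 2 ^ Lg N := by positivity
  rw [div_lt_iff₀ h5] at hN
  nlinarith

/-- DAT -/
theorem dat (hG : GAMStmt) (hGeo : GEOStmt) (hRad : RADStmt) (hSvl : SVLStmt) (hRtg : RTGStmt)
    (hRem : REMStmt) (hCmp : CMPStmt) (hSeg : SEGStmt) : DATStmt := by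
  intro c hc
  obtain ⟨c', hc', hCmp⟩ := hCmp c hc
  obtain ⟨δ, hδ, q₀, hGeo⟩ := hGeo (min (c' / 16) (1 / 16)) (by positivity)
  obtain ⟨ρ₀, hRad⟩ := hRad
  refine ⟨δ, hδ, ?_⟩
  have hev : ∀ᶠ N : ℕ in atTop, (100 * 128 ^ 4 ≤ Lg N ∧ q₀ ≤ Lg N ∧ ρ₀ ≤ Lg N) ∧
      (128 ^ 2 * (Lg N : ℝ) ^ 2 ≤ c' * N ∧ 128 ^ 2 * (Lg N : ℝ) ^ 2 ≤ 1 * N) ∧ 1 ≤ N := by
    have h1 := Lg_sq_small (c' / 128 ^ 2) (by positivity)
    have h2 := Lg_sq_small (1 / 128 ^ 2) (by positivity)
    filter_upwards [Lg_tendsto.eventually_ge_atTop (100 * 128 ^ 4),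
      Lg_tendsto.eventually_ge_atTop q₀, Lg_tendsto.eventually_ge_atTop ρ₀, h1, h2,
      eventually_ge_atTop 1] with N a1 a2 a3 a4 a5 a6
    refine ⟨⟨a1, a2, a3⟩, ⟨?_, ?_⟩, a6⟩
    · have : 128 ^ 2 * (Lg N : ℝ) ^ 2 ≤ 128 ^ 2 * (c' / 128 ^ 2 * N) := by gcongr
      refine this.trans (le_of_eq ?_)
      field_simp
    · have : 128 ^ 2 * (Lg N : ℝ) ^ 2 ≤ 128 ^ 2 * (1 / 128 ^ 2 * N) := by gcongr
      refine this.trans (le_of_eq ?_)
      field_simp
  obtain ⟨N₀, hN₀⟩ := eventually_atTop.1 hev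
  refine ⟨N₀, fun N hN A hA hThin hPure => ?_⟩
  obtain ⟨⟨hL1, hL2, hL3⟩, ⟨hL4, hL5⟩, hN1⟩ := hN₀ N hN
  obtain ⟨s, x₀, R, hR, hInc, hV, hcnt⟩ := hThin
  obtain ⟨hGb, hDb, hDo, hDc⟩ := hG N A
  -- the side `D`
  have hbd : bd (Sd N A s) = Gam N A := by
    cases s
    · show bd (if false = true then Dp N A else (Dp N A)ᶜ) = _
      rw [if_neg (by simp), bd_compl, hDb]
    · show bd (if true = true then Dp N A else (Dp N A)ᶜ) = _
      rw [if_pos rfl, hDb]
  have hCnn : Cnn (Sd N A s) := by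
    cases s
    · show Cnn (if false = true then Dp N A else (Dp N A)ᶜ)
      rw [if_neg (by simp)]
      exact Cnn_compl hDc
    · show Cnn (if true = true then Dp N A else (Dp N A)ᶜ)
      rw [if_pos rfl]
      exact hDc
  -- the radius is at most `2 N`
  have hx₀V : x₀ ∈ Vb N := hV x₀ (self_mem_Qb _ _) hInc.1
  have hR2 : R ≤ 2 * N := by
    by_contra hcon
    push Not at hcon
    have hx2 := mem_Vb.1 hx₀V
    cases s
    · have h1 : Function.update x₀ 2 ((N : ℤ) + 1) ∉ Vb N := by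
        intro h
        have := mem_Vb.1 h 2
        simp only [Function.update_self] at this
        rw [abs_le] at this
        omega
      refine h1 (hV _ ?_ ?_)
      · rw [mem_Qb]
        intro i
        by_cases hi : i = 2
        · subst hi
          have := hx2 2
          rw [Function.update_self]
          rw [abs_le] at *
          constructor <;> omega
        · rw [Function.update_of_ne hi]
          simp
      · show _ ∈ (if false = true then Dp N A else (Dp N A)ᶜ)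
        rw [if_neg (by simp)]
        intro h
        have := (hDo _ h1).1 h
        rw [Function.update_self] at this
        omega
    · have h1 : Function.update x₀ 2 (-((N : ℤ) + 1)) ∉ Vb N := by
        intro h
        have := mem_Vb.1 h 2
        simp only [Function.update_self] at this
        rw [abs_le] at this
        omega
      refine h1 (hV _ ?_ ?_)
      · rw [mem_Qb]
        intro i
        by_cases hi : i = 2
        · subst hi
          have := hx2 2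
          rw [Function.update_self]
          rw [abs_le] at *
          constructor <;> omega
        · rw [Function.update_of_ne hi]
          simp
      · show _ ∈ (if true = true then Dp N A else (Dp N A)ᶜ)
        rw [if_pos rfl]
        refine (hDo _ h1).2 ?_
        rw [Function.update_self]
        omega
  obtain ⟨k, hk1, hk2⟩ := dat_pow (64 * Lg N) (by omega)
  have hkR : 100 * (2 ^ k) ^ 4 ≤ R := by
    refine le_trans ?_ hR
    have h1 : 2 ^ k ≤ 128 * Lg N := by omega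
    calc 100 * (2 ^ k) ^ 4 ≤ 100 * (128 * Lg N) ^ 4 := by gcongr
      _ = (100 * 128 ^ 4) * Lg N ^ 4 := by ring
      _ ≤ Lg N * Lg N ^ 4 := by gcongr
      _ = Lg N ^ 5 := by ring
  obtain ⟨m, j, X, hXc, hjR, hX, hdisj, hcase⟩ := hGeo (Sd N A s) hCnn x₀ hInc k R
    (by omega) hkR hcnt
  have hkj : k ≤ j := by
    rcases hcase with h | h
    · exact h.2.ge
    · exact h.2.1.le
  have hρ : 2 ^ k ≤ 2 ^ j := Nat.pow_le_pow_right (by norm_num) hkj
  have hρ₀ : ρ₀ ≤ 2 ^ j := by omega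
  -- radii
  have hex : ∀ x ∈ X, ∃ r, 2 ≤ r ∧ 2 ^ j ≤ 2 * r ∧ r ≤ 2 ^ j ∧
      8 * cut (Sd N A s) x r ≤ sf (Sd N A s) x r ∧
      (sf (Sd N A s) x r - sf (Sd N A s) x (r - 1)) * Lg r ≤ sf (Sd N A s) x r ∧
      r ≤ sf (Sd N A s) x r :=
    fun x hx => hRad (Sd N A s) hCnn x (hX x hx).1 (2 ^ j) hρ₀ (hX x hx).2.2
  choose! r hr using hex
  have hQQ : ∀ x ∈ X, Qb x (r x) ⊆ Qb x (2 ^ j) := fun x hx => Qb_mono x (hr x hx).2.2.1
  have hd2 : ∀ x ∈ X, ∀ y ∈ X, x ≠ y → Disjoint (Qb x (r x)) (Qb y (r y)) := fun x hx y hy h =>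
    Finset.disjoint_of_subset_left (hQQ x hx)
      (Finset.disjoint_of_subset_right (hQQ y hy) (hdisj x hx y hy h))
  have hV2 : ∀ x ∈ X, ∀ y ∈ Qb x (r x), y ∈ Sd N A s → y ∈ Vb N := fun x hx y hy h =>
    hV y ((hX x hx).2.1 (hQQ x hx hy)) h
  obtain ⟨hF, hE⟩ := hRem N A s X r hA hd2 hV2
  set F : Finset Site := X.biUnion (fun x => (Qb x (r x)).filter (fun y => y ∈ Sd N A s))
    with hFdef
  -- cardinality of `F`
  have hFc : 10 ^ 9 * F.card ≤ m ^ 3 * (2 ^ j) ^ 3 := by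
    have h1 : F.card ≤ ∑ x ∈ X, cnt (Sd N A s) x (2 ^ j) := by
      refine (Finset.card_biUnion_le).trans ?_
      refine Finset.sum_le_sum fun x hx => ?_
      exact cnt_mono (Sd N A s) (hQQ x hx)
    calc 10 ^ 9 * F.card ≤ 10 ^ 9 * ∑ x ∈ X, cnt (Sd N A s) x (2 ^ j) := by gcongr
      _ = ∑ x ∈ X, 10 ^ 9 * cnt (Sd N A s) x (2 ^ j) := by rw [Finset.mul_sum]
      _ ≤ ∑ x ∈ X, (2 ^ j) ^ 3 := Finset.sum_le_sum fun x hx => (hX x hx).2.2
      _ = m ^ 3 * (2 ^ j) ^ 3 := by rw [Finset.sum_const, hXc, smul_eq_mul]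
  obtain ⟨a, ha⟩ : ∃ a, a = 2 * m * 2 ^ j / 1000 + 1 := ⟨_, rfl⟩
  have ha1 : 2 * m * 2 ^ j < 1000 * a := by
    have := Nat.div_add_mod (2 * m * 2 ^ j) 1000
    have := Nat.mod_lt (2 * m * 2 ^ j) (show 1000 > 0 by norm_num)
    omega
  have ha2 : 1000 * a ≤ 2 * m * 2 ^ j + 1000 := by
    have := Nat.div_mul_le_self (2 * m * 2 ^ j) 1000
    omega
  have ha8 : 8 * F.card ≤ a ^ 3 := by
    have h1 : (2 * m * 2 ^ j) ^ 3 ≤ (1000 * a) ^ 3 := Nat.pow_le_pow_left ha1.le 3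
    have h2 : (2 * m * 2 ^ j) ^ 3 = 8 * (m ^ 3 * (2 ^ j) ^ 3) := by ring
    have h3 : (1000 * a) ^ 3 = 10 ^ 9 * a ^ 3 := by ring
    omega
  have hRN : (R : ℝ) ≤ 2 * N := by exact_mod_cast hR2
  have hN0 : (1 : ℝ) ≤ N := by exact_mod_cast hN1
  have hj1 : ((2 ^ j : ℕ) : ℝ) ≤ c' / 8 * N := by
    refine hjR.trans ?_
    calc min (c' / 16) (1 / 16) * (R : ℝ) ≤ c' / 16 * (2 * N) := by
          gcongr
          exact min_le_left _ _
      _ = c' / 8 * N := by ring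
  have hj2 : ((2 ^ j : ℕ) : ℝ) ≤ 1 / 8 * N := by
    refine hjR.trans ?_
    calc min (c' / 16) (1 / 16) * (R : ℝ) ≤ 1 / 16 * (2 * N) := by
          gcongr
          exact min_le_right _ _
      _ = 1 / 8 * N := by ring
  have hbig : 1000 ≤ 2 ^ j := by omega
  have haN : (a : ℝ) ≤ c' * N ∧ (a : ℝ) ≤ 1 * N := by
    rcases hcase with ⟨hm, hjk⟩ | ⟨hm, _, _⟩
    · have h1 : 2 ^ j ≤ 128 * Lg N := by rw [hjk]; omega
      rw [hm, ← hjk] at ha2
      have h3 := dat_num3 hbig ha2 h1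
      have h4 : (a : ℝ) ≤ 128 ^ 2 * (Lg N : ℝ) ^ 2 := by exact_mod_cast h3
      exact ⟨h4.trans hL4, h4.trans hL5⟩
    · rw [hm] at ha2
      have h3 := dat_num4 hbig ha2
      generalize 2 ^ j = q at h3 hj1 hj2
      have h4 : (2 : ℝ) * a ≤ 5 * q := by exact_mod_cast h3
      have h5 : (0 : ℝ) ≤ c' * N := by positivity
      constructor
      · linarith only [h4, hj1, h5]
      · linarith only [h4, hj2, hN0]
  obtain ⟨z, hz, k', hk', hseg, hcard⟩ := hCmp N A F a hN1 hA hF hPure ha8 haN.1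
  -- the pieces
  refine ⟨j, X.image (fun x => (x, r x, (Qb x (r x)).filter (fun y => y ∈ Sd N A s))), z, a, k',
    by omega, ?_, ?_, ?_, hz, ?_, hk', ?_⟩
  · have h1 : ((2 ^ j : ℕ) : ℝ) ≤ (N : ℝ) := by linarith
    have h2 : 2 ^ j ≤ N := by exact_mod_cast h1
    have h3 := lt_pow_Lg N
    have h4 : 2 ^ j < 2 ^ Lg N := by omega
    have := (Nat.pow_lt_pow_iff_right (show 1 < 2 by norm_num)).1 h4
    omega
  · rw [Finset.image_nonempty, ← Finset.card_pos, hXc]
    rcases hcase with ⟨hm, _⟩ | ⟨hm, _, _⟩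
    · rw [hm]; positivity
    · rw [hm]; positivity
  · intro t ht
    rw [Finset.mem_image] at ht
    obtain ⟨x, hx, rfl⟩ := ht
    have hrx := hr x hx
    unfold pcs
    rw [Finset.mem_biUnion]
    refine ⟨(x, r x), ?_, ?_⟩
    · rw [Finset.mem_product, Finset.mem_range]
      exact ⟨hV x ((hX x hx).2.1 (self_mem_Qb _ _)) (hX x hx).1.1, by
        have := hrx.2.2.1
        simp only
        omega⟩
    · rw [Finset.mem_image]
      refine ⟨(Qb x (r x)).filter (fun y => y ∈ Sd N A s), ?_, rfl⟩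
      rw [Finset.mem_filter, Finset.mem_powerset]
      refine ⟨Finset.filter_subset _ _, hrx.1, ?_, ?_⟩
      · unfold Pc
        rw [Finset.mem_filter, Finset.mem_powerset]
        refine ⟨Finset.filter_subset _ _, hRtg _ hCnn x (r x), rfl, ?_⟩
        rw [sf_filter _ _ le_rfl, sf_filter _ _ (Nat.sub_le _ _)]
        exact hrx.2.2.2.2.1
      · simp only
        rw [sf_filter _ _ le_rfl]
        have := hrx.2.1
        have := hrx.2.2.2.2.2
        omega
  · have h1 : a ≤ N := by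
      have := haN.2
      rw [one_mul] at this
      exact_mod_cast this
    omega
  · have hUn : (X.image (fun x => (x, r x,
        (Qb x (r x)).filter (fun y => y ∈ Sd N A s)))).biUnion (fun t => t.2.2) = F := by
      rw [Finset.image_biUnion]
    have hSum : ∑ t ∈ X.image (fun x => (x, r x,
        (Qb x (r x)).filter (fun y => y ∈ Sd N A s))), sf (t.2.2 : Set Site) t.1 t.2.1 =
        ∑ x ∈ X, sf (Sd N A s) x (r x) := by
      rw [Finset.sum_image]
      · exact Finset.sum_congr rfl fun x hx => sf_filter _ _ le_rfl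
      · intro x _ y _ h
        exact (Prod.mk.inj h).1
    rw [hUn, hSum]
    refine ⟨symmDiff_subset_Vb (symmDiff_subset_Vb hA hF) hseg, hcard, ?_⟩
    have h1 := en_flip_le (A := symmDiff A F) hseg
    have h2 := (hSeg z a).1 k'
    have h3 : 8 * ∑ x ∈ X, cut (Sd N A s) x (r x) ≤ ∑ x ∈ X, sf (Sd N A s) x (r x) := by
      rw [Finset.mul_sum]
      exact Finset.sum_le_sum fun x hx => (hr x hx).2.2.2.1
    have h4 : 16 * a ^ 2 ≤ ∑ x ∈ X, sf (Sd N A s) x (r x) := by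
      rcases hcase with ⟨hm, hjk⟩ | ⟨hm, hkj', hden⟩
      · have h5 : m ^ 3 * 2 ^ j ≤ 2 * ∑ x ∈ X, sf (Sd N A s) x (r x) := by
          rw [← hXc, ← smul_eq_mul, ← Finset.sum_const, Finset.mul_sum]
          refine Finset.sum_le_sum fun x hx => ?_
          have := (hr x hx).2.1
          have := (hr x hx).2.2.2.2.2
          omega
        rw [← hjk] at hm
        rw [hm] at h5 ha2
        exact dat_num1 hbig ha2 h5
      · have h5 : m ^ 3 * (2 ^ j) ^ 2 ≤ 2 * 10 ^ 6 * ∑ x ∈ X, sf (Sd N A s) x (r x) := by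
          rw [← hXc, ← smul_eq_mul, ← Finset.sum_const, Finset.mul_sum]
          refine Finset.sum_le_sum fun x hx => ?_
          have hrx := hr x hx
          refine hSvl (Sd N A s) x (2 ^ j) (r x) ?_ hrx.2.1 hrx.2.2.1 (hX x hx).2.2
            (hden x hx)
          exact dvd_pow_self 2 (by omega)
        rw [hm] at h5 ha2
        exact dat_num2 hbig ha2 h5
    omega

end Pool.ISH
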