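import Pool.Agent.H40.ISH.Stmts

/-!
Project ISH, module DEN: thin sides of the interface are improbable.
-/

set_option linter.unusedVariables false

namespace Pool.ISH

open MeasureTheory Filter Topology
open scoped Classical Pointwise

/-- the set of all data for the change of a configuration -/
noncomputable def denI (N : ℕ) : Finset (ℕ × Site × ℕ × ℕ) :=
  Finset.range (Lg N + 2) ×ˢ Vb N ×ˢ Finset.range (2 * N + 2) ×ˢ Finset.range ((2 * N + 1) ^ 3 + 1)

theorem card_denI {N : ℕ} (hN : 1 ≤ N) : (denI N).card ≤ 12096 * N ^ 8 := by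
  unfold denI
  rw [Finset.card_product, Finset.card_product, Finset.card_product, card_Vb, Finset.card_range,
    Finset.card_range, Finset.card_range]
  have h1 : Lg N + 2 ≤ 4 * N := by
    unfold Lg
    have : Nat.log 2 N ≤ N := Nat.log_le_self 2 N
    have : Nat.log 2 N < N := Nat.log_lt_of_lt_pow (by omega) Nat.lt_two_pow_self
    omega
  have h2 : (2 * N + 1) ^ 3 ≤ 27 * N ^ 3 := by
    calc (2 * N + 1) ^ 3 ≤ (3 * N) ^ 3 := Nat.pow_le_pow_left (by omega) 3
      _ = 27 * N ^ 3 := by ring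
  have h3 : (2 * N + 1) ^ 3 + 1 ≤ 28 * N ^ 3 := by
    have : 1 ≤ N ^ 3 := Nat.one_le_pow _ _ hN
    omega
  calc (Lg N + 2) * ((2 * N + 1) ^ 3 * ((2 * N + 2) * ((2 * N + 1) ^ 3 + 1)))
      ≤ (4 * N) * ((27 * N ^ 3) * ((4 * N) * (28 * N ^ 3))) := by
        gcongr
        omega
    _ = 12096 * N ^ 8 := by ring

theorem exp_sub_one_le {x : ℝ} (h0 : 0 ≤ x) (h1 : x ≤ 1) : Real.exp x - 1 ≤ 2 * x := by
  have h := Real.abs_exp_sub_one_le (x := x) (by rw [abs_of_nonneg h0]; exact h1)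
  rw [abs_of_nonneg h0] at h
  exact (le_abs_self _).trans h

/-- the sum over all nonempty sets of pieces -/
theorem den_sum {ι : Type*} (s : Finset ι) (f : ι → ℝ) (hf : ∀ i ∈ s, 0 ≤ f i) :
    ∑ X ∈ s.powerset.filter (fun X => X.Nonempty), ∏ i ∈ X, f i ≤
      Real.exp (∑ i ∈ s, f i) - 1 := by
  have h1 : ∑ X ∈ s.powerset, ∏ i ∈ X, f i = ∏ i ∈ s, (1 + f i) := (Finset.prod_one_add s).symm
  have h2 : ∑ X ∈ s.powerset, ∏ i ∈ X, f i =
      ∑ X ∈ s.powerset.filter (fun X => X.Nonempty), ∏ i ∈ X, f i +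
        ∑ X ∈ s.powerset.filter (fun X => ¬ X.Nonempty), ∏ i ∈ X, f i :=
    (Finset.sum_filter_add_sum_filter_not _ _ _).symm
  have h3 : s.powerset.filter (fun X => ¬ X.Nonempty) = {∅} := by
    ext X
    simp only [Finset.mem_filter, Finset.mem_powerset, Finset.not_nonempty_iff_eq_empty,
      Finset.mem_singleton]
    constructor
    · exact fun h => h.2
    · rintro rfl
      exact ⟨Finset.empty_subset _, rfl⟩
  rw [h3, Finset.sum_singleton, Finset.prod_empty] at h2
  have h4 : ∏ i ∈ s, (1 + f i) ≤ Real.exp (∑ i ∈ s, f i) := by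
    rw [Real.exp_sum]
    refine Finset.prod_le_prod (fun i hi => by linarith [hf i hi]) (fun i hi => ?_)
    rw [add_comm]
    exact Real.add_one_le_exp _
  linarith

/-- DEN -/
theorem den (hD : DATStmt) (hP : CPUStmt) (hS : PSMStmt) : DENStmt := by
  obtain ⟨c, β₁, hc, hP⟩ := hP
  obtain ⟨δ, hδ, N₁, hD⟩ := hD c hc
  refine ⟨max β₁ 102, δ, hδ, fun β hβ => ?_⟩
  have hβ1 : β₁ ≤ β := (le_max_left _ _).trans hβ
  have hβ2 : 102 ≤ β := (le_max_right _ _).trans hβ
  obtain ⟨N₂, hP⟩ := hP β hβ1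
  obtain ⟨N₃, hS⟩ := hS β hβ2
  refine ⟨max (max N₁ N₂) (max N₃ 10), fun N hN m hm hne => ?_⟩
  have hN1 : N₁ ≤ N := (le_max_left _ _).trans ((le_max_left _ _).trans hN)
  have hN2 : N₂ ≤ N := (le_max_right _ _).trans ((le_max_left _ _).trans hN)
  have hN3 : N₃ ≤ N := (le_max_left _ _).trans ((le_max_right _ _).trans hN)
  have hN10 : 10 ≤ N := (le_max_right _ _).trans ((le_max_right _ _).trans hN)
  have hPN := hP N hN2 m hm hne
  set T : Finset Site → Prop := fun A => Thin δ (Lg N ^ 5) N A with hT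
  -- split
  have hsplit : ZZ β N ((Cf N m).filter (fun A => T A)) ≤
      ZZ β N ((Cf N m).filter (fun A => ¬ Pure c N A)) +
        ZZ β N ((Cf N m).filter (fun A => T A ∧ Pure c N A)) := by
    unfold ZZ
    have h1 : (Cf N m).filter (fun A => T A) ⊆
        (Cf N m).filter (fun A => ¬ Pure c N A) ∪
          (Cf N m).filter (fun A => T A ∧ Pure c N A) := by
      intro A hA
      simp only [Finset.mem_union, Finset.mem_filter] at *
      tauto
    refine (Finset.sum_le_sum_of_subset_of_nonneg h1 fun A _ _ => (wt_pos β N A).le).trans ?_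
    rw [← Finset.sum_union_inter]
    have : 0 ≤ ∑ A ∈ (Cf N m).filter (fun A => ¬ Pure c N A) ∩
          (Cf N m).filter (fun A => T A ∧ Pure c N A), wt β N A :=
      Finset.sum_nonneg fun A _ => (wt_pos β N A).le
    linarith
  -- the set of data
  set I := denI N with hI
  let e : Site × ℕ × Finset Site → ℝ := fun t => Real.exp (- (β * sf (t.2.2 : Set Site) t.1 t.2.1))
  let U : Finset (Σ _ : ℕ × Site × ℕ × ℕ, Finset (Site × ℕ × Finset Site) × Finset Site) :=
    (I.filter (fun i => 64 * Lg N ≤ 2 ^ i.1)).sigma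
      (fun i => ((pcs N i.1).powerset.filter (fun X => X.Nonempty)) ×ˢ Cf N m)
  let F : (Σ _ : ℕ × Site × ℕ × ℕ, Finset (Site × ℕ × Finset Site) × Finset Site) → ℝ :=
    fun u => wt β N u.2.2 * ∏ t ∈ u.2.1, e t
  let G : (Σ _ : ℕ × Site × ℕ × ℕ, Finset (Site × ℕ × Finset Site) × Finset Site) → Finset Site :=
    fun u => symmDiff (symmDiff u.2.2 (seg u.1.2.1 u.1.2.2.1 u.1.2.2.2))
      (u.2.1.biUnion (fun t => t.2.2))
  have hex : ∀ A ∈ (Cf N m).filter (fun A => T A ∧ Pure c N A),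
      ∃ u ∈ U, G u = A ∧ wt β N A ≤ F u := by
    intro A hA
    rw [Finset.mem_filter] at hA
    obtain ⟨hA, hTA, hPA⟩ := hA
    have hA' := hA
    unfold Cf at hA
    rw [Finset.mem_filter, Finset.mem_powerset] at hA
    obtain ⟨j, X, z, a, k, h1, h2, h3, h4, h5, h6, h7, h8, h9, h10⟩ := hD N hN1 A hA.1 hTA hPA
    set B := symmDiff (symmDiff A (X.biUnion (fun t => t.2.2))) (seg z a k) with hB
    refine ⟨⟨(j, z, a, k), (X, B)⟩, ?_, ?_, ?_⟩
    · simp only [U, Finset.mem_sigma, Finset.mem_filter, Finset.mem_product,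
        Finset.mem_powerset, hI, denI, Finset.mem_range]
      refine ⟨⟨⟨by omega, h5, by omega, ?_⟩, h1⟩, ⟨h4, h3⟩, ?_⟩
      · have : a ^ 3 ≤ (2 * N + 1) ^ 3 := Nat.pow_le_pow_left h6 3
        omega
      · unfold Cf
        rw [Finset.mem_filter, Finset.mem_powerset]
        refine ⟨h8, ?_⟩
        rw [← hA.2]
        unfold mg
        rw [h9]
    · simp only [G]
      rw [hB, symmDiff_symmDiff_cancel_right, symmDiff_symmDiff_cancel_right]
    · simp only [F, e]
      rw [← Real.exp_sum]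
      unfold wt
      rw [← Real.exp_add]
      apply Real.exp_le_exp.2
      rw [Finset.sum_neg_distrib, ← Finset.mul_sum]
      have h11 : (2 : ℝ) * en N B + ∑ t ∈ X, (sf (t.2.2 : Set Site) t.1 t.2.1 : ℝ) ≤
          2 * en N A := by exact_mod_cast h10
      have h12 : (0 : ℝ) ≤ β := by linarith
      nlinarith
  choose! g hg using hex
  have hinj : Set.InjOn g ((Cf N m).filter (fun A => T A ∧ Pure c N A) : Finset (Finset Site)) := by
    intro A hA B hB hAB
    rw [Finset.mem_coe] at hA hB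
    rw [← (hg A hA).2.1, ← (hg B hB).2.1, hAB]
  have hF0 : ∀ u, 0 ≤ F u := fun u => mul_nonneg (wt_pos _ _ _).le
    (Finset.prod_nonneg fun t _ => (Real.exp_pos _).le)
  have h2 : ZZ β N ((Cf N m).filter (fun A => T A ∧ Pure c N A)) ≤ ∑ u ∈ U, F u := by
    unfold ZZ
    calc ∑ A ∈ (Cf N m).filter (fun A => T A ∧ Pure c N A), wt β N A
        ≤ ∑ A ∈ (Cf N m).filter (fun A => T A ∧ Pure c N A), F (g A) :=
          Finset.sum_le_sum fun A hA => (hg A hA).2.2
      _ = ∑ u ∈ ((Cf N m).filter (fun A => T A ∧ Pure c N A)).image g, F u := by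
          rw [Finset.sum_image hinj]
      _ ≤ ∑ u ∈ U, F u := by
          refine Finset.sum_le_sum_of_subset_of_nonneg ?_ fun u _ _ => hF0 u
          intro u hu
          rw [Finset.mem_image] at hu
          obtain ⟨A, hA, rfl⟩ := hu
          exact (hg A hA).1
  have hZ : 0 ≤ ZZ β N (Cf N m) := Finset.sum_nonneg fun A _ => (wt_pos β N A).le
  have hNr : (10 : ℝ) ≤ N := by exact_mod_cast hN10
  have hN16 : (0 : ℝ) < 1 / (N : ℝ) ^ 16 := by positivity
  have hN16' : 1 / (N : ℝ) ^ 16 ≤ 1 := by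
    rw [div_le_one (by positivity)]
    exact one_le_pow₀ (by linarith)
  have h3 : ∑ u ∈ U, F u ≤ (12096 * (N : ℝ) ^ 8) * (2 * (1 / (N : ℝ) ^ 16) * ZZ β N (Cf N m)) := by
    simp only [U]
    rw [Finset.sum_sigma]
    have h4 : ∀ i ∈ I.filter (fun i => 64 * Lg N ≤ 2 ^ i.1),
        ∑ s ∈ ((pcs N i.1).powerset.filter (fun X => X.Nonempty)) ×ˢ Cf N m, F ⟨i, s⟩ ≤
          2 * (1 / (N : ℝ) ^ 16) * ZZ β N (Cf N m) := by
      intro i hi
      simp only [hI, denI, Finset.mem_filter, Finset.mem_product, Finset.mem_range] at hi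
      rw [Finset.sum_product]
      have h5 : ∑ X ∈ (pcs N i.1).powerset.filter (fun X => X.Nonempty),
          ∑ B ∈ Cf N m, F ⟨i, (X, B)⟩ =
          (∑ X ∈ (pcs N i.1).powerset.filter (fun X => X.Nonempty), ∏ t ∈ X, e t) *
            ZZ β N (Cf N m) := by
        unfold ZZ
        rw [Finset.sum_mul]
        refine Finset.sum_congr rfl fun X _ => ?_
        rw [Finset.mul_sum]
        refine Finset.sum_congr rfl fun B _ => ?_
        simp only [F]
        ring
      rw [h5]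
      refine mul_le_mul_of_nonneg_right ?_ hZ
      refine (den_sum _ _ fun t _ => (Real.exp_pos _).le).trans ?_
      have h6 := hS N hN3 i.1 hi.2 (by omega)
      have h7 : 0 ≤ ∑ t ∈ pcs N i.1, e t := Finset.sum_nonneg fun t _ => (Real.exp_pos _).le
      have h8 : ∑ t ∈ pcs N i.1, e t ≤ 1 / (N : ℝ) ^ 16 := h6
      refine (exp_sub_one_le h7 (h8.trans hN16')).trans ?_
      linarith
    refine (Finset.sum_le_sum h4).trans ?_
    rw [Finset.sum_const, nsmul_eq_mul]
    refine mul_le_mul_of_nonneg_right ?_ (by positivity)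
    have h9 : (I.filter (fun i => 64 * Lg N ≤ 2 ^ i.1)).card ≤ 12096 * N ^ 8 :=
      (Finset.card_filter_le _ _).trans (card_denI (by omega))
    exact_mod_cast h9
  have h4 : (12096 * (N : ℝ) ^ 8) * (2 * (1 / (N : ℝ) ^ 16) * ZZ β N (Cf N m)) ≤
      1 / (2 * N) * ZZ β N (Cf N m) := by
    have h5 : (12096 * (N : ℝ) ^ 8) * (2 * (1 / (N : ℝ) ^ 16)) ≤ 1 / (2 * N) := by
      have h6 : (12096 * (N : ℝ) ^ 8) * (2 * (1 / (N : ℝ) ^ 16)) = 24192 / (N : ℝ) ^ 8 := by
        field_simp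
        norm_num
      rw [h6, div_le_div_iff₀ (by positivity) (by positivity)]
      have h7 : (10 : ℝ) ^ 7 ≤ (N : ℝ) ^ 7 := by gcongr
      have h8 : (N : ℝ) ^ 8 = (N : ℝ) ^ 7 * N := by ring
      rw [h8]
      nlinarith
    calc (12096 * (N : ℝ) ^ 8) * (2 * (1 / (N : ℝ) ^ 16) * ZZ β N (Cf N m))
        = ((12096 * (N : ℝ) ^ 8) * (2 * (1 / (N : ℝ) ^ 16))) * ZZ β N (Cf N m) := by ring
      _ ≤ 1 / (2 * N) * ZZ β N (Cf N m) := mul_le_mul_of_nonneg_right h5 hZ
  have h5 : (1 : ℝ) / N = 1 / (2 * N) + 1 / (2 * N) := by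
    field_simp
    norm_num
  rw [h5, add_mul]
  linarith

end Pool.ISH
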