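import Pool.Agent.H40.ISH.Stmts

/-!
Project ISH, module LIT: the probabilities in terms of the numbers of broken bonds.
-/

set_option linter.unusedVariables false

namespace Pool.ISH

open MeasureTheory Filter Topology
open scoped Classical Pointwise

theorem spin_eq_ite (N : ℕ) (A : Finset Site) (x : Site) :
    spin N A x = if x ∈ Pl N A then 1 else -1 := by
  unfold spin
  by_cases h1 : x ∈ Vb N
  · by_cases h2 : x ∈ A
    · have h3 : x ∈ Pl N A := Or.inl ⟨h1, h2⟩
      rw [if_pos h1, if_pos h2, if_pos h3]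
    · have h3 : x ∉ Pl N A := by
        rintro (h | h)
        · exact h2 h.2
        · exact h.1 h1
      rw [if_pos h1, if_neg h2, if_neg h3]
  · by_cases h2 : x 2 ≤ 0
    · have h3 : x ∈ Pl N A := Or.inr ⟨h1, h2⟩
      rw [if_neg h1, if_pos h2, if_pos h3]
    · have h3 : x ∉ Pl N A := by
        rintro (h | h)
        · exact h1 h.1
        · exact h2 h.2
      rw [if_neg h1, if_neg h2, if_neg h3]

theorem spin_mul (N : ℕ) (A : Finset Site) (b : Bond) :
    spin N A (lo b) * spin N A (hi b) = 1 - 2 * (if b ∈ bd (Pl N A) then 1 else 0) := by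
  rw [spin_eq_ite, spin_eq_ite]
  simp only [mem_bd]
  by_cases h1 : lo b ∈ Pl N A <;> by_cases h2 : hi b ∈ Pl N A <;> simp [h1, h2]

theorem energy_eq (N : ℕ) (A : Finset Site) :
    energy N A = 2 * (en N A : ℤ) - ((BV N).card : ℤ) := by
  unfold energy en
  rw [Finset.sum_congr rfl (fun b _ => spin_mul N A b), Finset.sum_sub_distrib,
    ← Finset.mul_sum, Finset.sum_boole, Finset.sum_const]
  simp

theorem magn_eq {N : ℕ} {A : Finset Site} (hA : A ⊆ Vb N) : magn N A = mg N A := by
  unfold magn mg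
  have h1 : ∀ x ∈ Vb N, spin N A x = 2 * (if x ∈ A then 1 else 0) - 1 := by
    intro x hx
    unfold spin
    rw [if_pos hx]
    by_cases h : x ∈ A <;> simp [h]
  rw [Finset.sum_congr rfl h1, Finset.sum_sub_distrib, ← Finset.mul_sum, Finset.sum_boole,
    Finset.sum_const]
  have h2 : (Vb N).filter (fun x => x ∈ A) = A := by
    ext x
    rw [Finset.mem_filter]
    exact ⟨fun h => h.2, fun h => ⟨hA h, h⟩⟩
  rw [h2]
  simp

theorem gsum_eq (β : ℝ) (N : ℕ) (m : ℤ) (S : Finset Site → Prop) :
    gsum β N m S = Real.exp (β * ((BV N).card : ℝ)) * ZZ β N ((Cf N m).filter (fun A => S A)) := by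
  unfold gsum ZZ
  have h1 : (Vb N).powerset.filter (fun A => magn N A = m ∧ S A) =
      (Cf N m).filter (fun A => S A) := by
    ext A
    simp only [Cf, Finset.mem_filter, Finset.mem_powerset]
    constructor
    · rintro ⟨h1, h2, h3⟩
      exact ⟨⟨h1, by rw [← magn_eq h1]; exact h2⟩, h3⟩
    · rintro ⟨⟨h1, h2⟩, h3⟩
      exact ⟨h1, by rw [magn_eq h1]; exact h2, h3⟩
  rw [h1, Finset.mul_sum]
  refine Finset.sum_congr rfl fun A _ => ?_
  unfold wt
  rw [← Real.exp_add, energy_eq]
  congr 1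
  push_cast
  ring

/-- LIT -/
theorem lit : LITStmt := by
  intro β N m S
  unfold prob
  rw [gsum_eq, gsum_eq]
  rw [Finset.filter_true]
  have h0 : Real.exp (β * ((BV N).card : ℝ)) ≠ 0 := (Real.exp_pos _).ne'
  exact mul_div_mul_left _ _ h0

end Pool.ISH
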