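import Pool.Agent.H40.ISH.Stmts

/-!
Project ISH, module PSM: the sum of the weights of all pieces is small.
-/

set_option linter.unusedVariables false

namespace Pool.ISH

open MeasureTheory Filter Topology
open scoped Classical Pointwise

theorem two_le_exp : (2 : ℝ) ≤ Real.exp 0.7 := by
  have h := Real.log_two_lt_d9
  calc (2 : ℝ) = Real.exp (Real.log 2) := (Real.exp_log (by norm_num)).symm
    _ ≤ Real.exp 0.7 := Real.exp_le_exp.2 (by linarith)

theorem mem_pcs {N j : ℕ} {t : Site × ℕ × Finset Site} (ht : t ∈ pcs N j) :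
    (t.1, t.2.1) ∈ Vb N ×ˢ (Finset.range (2 ^ j + 1)) ∧ 2 ≤ t.2.1 ∧
      t.2.2 ∈ Pc t.1 t.2.1 (sf (t.2.2 : Set Site) t.1 t.2.1) ∧
        2 ^ j ≤ 2 * sf (t.2.2 : Set Site) t.1 t.2.1 := by
  unfold pcs at ht
  rw [Finset.mem_biUnion] at ht
  obtain ⟨p, hp, ht⟩ := ht
  rw [Finset.mem_image] at ht
  obtain ⟨D, hD, rfl⟩ := ht
  rw [Finset.mem_filter] at hD
  exact ⟨hp, hD.2.1, hD.2.2.1, hD.2.2.2⟩

theorem psm_count (hE : ENTStmt) (N j s : ℕ) :
    ((pcs N j).filter (fun t => sf (t.2.2 : Set Site) t.1 t.2.1 = s)).card ≤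
      ((2 * N + 1) ^ 3 * (2 ^ j + 1)) * 2 ^ (100 * s + 1) := by
  have h1 : (pcs N j).filter (fun t => sf (t.2.2 : Set Site) t.1 t.2.1 = s) ⊆
      ((Vb N ×ˢ (Finset.range (2 ^ j + 1))).filter (fun p => 2 ≤ p.2)).biUnion
        (fun p => (Pc p.1 p.2 s).image (fun D => (p.1, p.2, D))) := by
    intro t ht
    rw [Finset.mem_filter] at ht
    obtain ⟨ht, hs⟩ := ht
    obtain ⟨h2, h3, h4, h5⟩ := mem_pcs ht
    rw [Finset.mem_biUnion]
    refine ⟨(t.1, t.2.1), ?_, ?_⟩
    · rw [Finset.mem_filter]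
      exact ⟨h2, h3⟩
    · rw [Finset.mem_image]
      refine ⟨t.2.2, ?_, rfl⟩
      rw [hs] at h4
      exact h4
  refine (Finset.card_le_card h1).trans (Finset.card_biUnion_le.trans ?_)
  have h2 : ∀ p ∈ (Vb N ×ˢ (Finset.range (2 ^ j + 1))).filter (fun p => 2 ≤ p.2),
      ((Pc p.1 p.2 s).image (fun D => (p.1, p.2, D))).card ≤ 2 ^ (100 * s + 1) := by
    intro p hp
    rw [Finset.mem_filter] at hp
    exact Finset.card_image_le.trans (hE p.1 p.2 s hp.2)
  refine (Finset.sum_le_sum h2).trans ?_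
  rw [Finset.sum_const, smul_eq_mul]
  refine Nat.mul_le_mul_right _ ((Finset.card_filter_le _ _).trans ?_)
  rw [Finset.card_product, card_Vb, Finset.card_range]

theorem psm_two_pow (β : ℝ) (hβ : 102 ≤ β) (L s : ℕ) (h : 32 * L ≤ s) :
    (2 : ℝ) ^ (100 * s + 1) * Real.exp (- (β * s)) ≤ 2 * Real.exp (- (64 * (L : ℝ))) := by
  have h1 : (2 : ℝ) ^ (100 * s) ≤ Real.exp (70 * s) := by
    calc (2 : ℝ) ^ (100 * s) ≤ (Real.exp 0.7) ^ (100 * s) := by
          gcongr
          exact two_le_exp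
      _ = Real.exp (70 * s) := by
          rw [← Real.exp_nat_mul]
          congr 1
          push_cast
          ring
  have hs : (32 : ℝ) * L ≤ s := by exact_mod_cast h
  have hL : (0 : ℝ) ≤ L := Nat.cast_nonneg _
  have hs0 : (0 : ℝ) ≤ s := Nat.cast_nonneg _
  calc (2 : ℝ) ^ (100 * s + 1) * Real.exp (- (β * s))
      = 2 * ((2 : ℝ) ^ (100 * s) * Real.exp (- (β * s))) := by ring
    _ ≤ 2 * (Real.exp (70 * s) * Real.exp (- (β * s))) := by gcongr
    _ = 2 * Real.exp (70 * s - β * s) := by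
        rw [← Real.exp_add]
        ring_nf
    _ ≤ 2 * Real.exp (- (64 * (L : ℝ))) := by
        gcongr
        nlinarith

/-- PSM -/
theorem psm (hE : ENTStmt) : PSMStmt := by
  intro β hβ
  refine ⟨2, fun N hN j hj hj2 => ?_⟩
  set K : ℕ := (2 * N + 1) ^ 3 * (2 ^ j + 1) with hK
  set M : ℕ := 3 * (2 * 2 ^ j + 1) ^ 3 + 1 with hM
  set f : Site × ℕ × Finset Site → ℕ := fun t => sf (t.2.2 : Set Site) t.1 t.2.1 with hf
  have hmaps : ∀ t ∈ pcs N j, f t ∈ Finset.range M := by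
    intro t ht
    obtain ⟨h2, h3, h4, h5⟩ := mem_pcs ht
    rw [Finset.mem_product, Finset.mem_range] at h2
    rw [Finset.mem_range, hM, Nat.lt_succ_iff]
    simp only [hf]
    unfold sf
    refine (Finset.card_filter_le _ _).trans ((card_BQ_le _ _).trans ?_)
    have : t.2.1 ≤ 2 ^ j := Nat.lt_succ_iff.1 h2.2
    gcongr
  have h1 : ∑ t ∈ pcs N j, Real.exp (- (β * f t)) =
      ∑ s ∈ Finset.range M, ∑ t ∈ (pcs N j).filter (fun t => f t = s),
        Real.exp (- (β * f t)) := (Finset.sum_fiberwise_of_maps_to hmaps _).symm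
  have h2 : ∀ s ∈ Finset.range M, ∑ t ∈ (pcs N j).filter (fun t => f t = s),
        Real.exp (- (β * f t)) ≤ (K : ℝ) * (2 * Real.exp (- (64 * (Lg N : ℝ)))) := by
    intro s _
    by_cases hs : 32 * Lg N ≤ s
    · have h3 : ∑ t ∈ (pcs N j).filter (fun t => f t = s), Real.exp (- (β * f t)) =
          (((pcs N j).filter (fun t => f t = s)).card : ℝ) * Real.exp (- (β * s)) := by
        rw [← nsmul_eq_mul, ← Finset.sum_const]
        refine Finset.sum_congr rfl fun t ht => ?_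
        rw [Finset.mem_filter] at ht
        rw [ht.2]
      rw [h3]
      have h4 := psm_count hE N j s
      have h5 : (((pcs N j).filter (fun t => f t = s)).card : ℝ) ≤
          (K : ℝ) * 2 ^ (100 * s + 1) := by exact_mod_cast h4
      calc (((pcs N j).filter (fun t => f t = s)).card : ℝ) * Real.exp (- (β * s))
          ≤ ((K : ℝ) * 2 ^ (100 * s + 1)) * Real.exp (- (β * s)) := by gcongr
        _ = (K : ℝ) * (2 ^ (100 * s + 1) * Real.exp (- (β * s))) := by ring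
        _ ≤ (K : ℝ) * (2 * Real.exp (- (64 * (Lg N : ℝ)))) :=
            mul_le_mul_of_nonneg_left (psm_two_pow β hβ _ _ hs) (Nat.cast_nonneg _)
    · have h3 : (pcs N j).filter (fun t => f t = s) = ∅ := by
        rw [Finset.filter_eq_empty_iff]
        intro t ht hts
        obtain ⟨_, _, _, h5⟩ := mem_pcs ht
        have h6 : f t = sf (t.2.2 : Set Site) t.1 t.2.1 := rfl
        omega
      rw [h3, Finset.sum_empty]
      positivity
  have h3 : ∑ t ∈ pcs N j, Real.exp (- (β * f t)) ≤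
      (M : ℝ) * ((K : ℝ) * (2 * Real.exp (- (64 * (Lg N : ℝ))))) := by
    rw [h1]
    refine (Finset.sum_le_sum h2).trans ?_
    rw [Finset.sum_const, Finset.card_range, nsmul_eq_mul]
  refine h3.trans ?_
  -- numbers
  have hj4 : 2 ^ j ≤ 4 * N := by
    calc 2 ^ j ≤ 2 ^ (Lg N + 1) := Nat.pow_le_pow_right (by norm_num) hj2
      _ = 4 * 2 ^ (Nat.log 2 N) := by unfold Lg; ring
      _ ≤ 4 * N := by
        have := Nat.pow_log_le_self 2 (x := N) (by omega)
        omega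
  have hM' : M ≤ 2188 * N ^ 3 := by
    have h4 : (2 * 2 ^ j + 1) ^ 3 ≤ (9 * N) ^ 3 := Nat.pow_le_pow_left (by omega) 3
    have h5 : (9 * N) ^ 3 = 729 * N ^ 3 := by ring
    have h6 : 1 ≤ N ^ 3 := Nat.one_le_pow _ _ (by omega)
    omega
  have hK' : K ≤ 135 * N ^ 4 := by
    calc K ≤ (3 * N) ^ 3 * (5 * N) := by
          rw [hK]
          gcongr
          · omega
          · omega
      _ = 135 * N ^ 4 := by ring
  have hMr : (M : ℝ) ≤ 2188 * (N : ℝ) ^ 3 := by exact_mod_cast hM'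
  have hKr : (K : ℝ) ≤ 135 * (N : ℝ) ^ 4 := by exact_mod_cast hK'
  have hNr : (2 : ℝ) ≤ N := by exact_mod_cast hN
  have hexp : Real.exp (- (64 * (Lg N : ℝ))) ≤ 1 / (N : ℝ) ^ 64 := by
    rw [Real.exp_neg, one_div]
    apply inv_anti₀ (by positivity)
    have h5 : (N : ℝ) ≤ 2 ^ Lg N := by
      have : N < 2 ^ Lg N := Nat.lt_pow_succ_log_self (by norm_num) N
      exact_mod_cast this.le
    have h6 : (2 : ℝ) ^ Lg N ≤ Real.exp (Lg N) := by
      have h7 : (2 : ℝ) ≤ Real.exp 1 := by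
        have := Real.add_one_le_exp (1 : ℝ)
        linarith
      calc (2 : ℝ) ^ Lg N ≤ (Real.exp 1) ^ Lg N := by gcongr
        _ = Real.exp (Lg N) := by rw [← Real.exp_nat_mul]; ring_nf
    calc (N : ℝ) ^ 64 ≤ (Real.exp (Lg N)) ^ 64 := by
          gcongr
          exact h5.trans h6
      _ = Real.exp (64 * (Lg N : ℝ)) := by rw [← Real.exp_nat_mul]; norm_num
  calc (M : ℝ) * ((K : ℝ) * (2 * Real.exp (- (64 * (Lg N : ℝ)))))
      ≤ (2188 * (N : ℝ) ^ 3) * ((135 * (N : ℝ) ^ 4) * (2 * (1 / (N : ℝ) ^ 64))) := by gcongr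
    _ = 590760 / (N : ℝ) ^ 57 := by
        field_simp
        norm_num
    _ ≤ 1 / (N : ℝ) ^ 16 := by
        rw [div_le_div_iff₀ (by positivity) (by positivity)]
        have h8 : (2 : ℝ) ^ 41 ≤ (N : ℝ) ^ 41 := by gcongr
        have h9 : (N : ℝ) ^ 57 = (N : ℝ) ^ 41 * (N : ℝ) ^ 16 := by ring
        rw [h9, one_mul]
        have h10 : (590760 : ℝ) ≤ (N : ℝ) ^ 41 := by
          refine le_trans ?_ h8
          norm_num
        have : (0 : ℝ) ≤ (N : ℝ) ^ 16 := by positivity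
        exact mul_le_mul_of_nonneg_right h10 this

end Pool.ISH
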