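import Pool.Agent.H40.ISH.Stmts

/-!
Project ISH, module REM: removing the pieces of one side of the interface in disjoint cubes.
-/

set_option linter.unusedVariables false

namespace Pool.ISH

open MeasureTheory Filter Topology
open scoped Classical Pointwise

theorem bd_Sd {N : ℕ} {A : Finset Site} (h : bd (Dp N A) = Gam N A) (s : Bool) :
    bd (Sd N A s) = Gam N A := by
  unfold Sd
  split_ifs with hs
  · exact h
  · rw [bd_compl, h]

/-- REM -/
theorem rem (hG : GAMStmt) : REMStmt := by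
  intro N A s X r hA hdisj hV
  set F : Finset Site := X.biUnion (fun x => (Qb x (r x)).filter (fun y => y ∈ Sd N A s))
    with hFdef
  have hmem : ∀ y, y ∈ F ↔ ∃ x ∈ X, y ∈ Qb x (r x) ∧ y ∈ Sd N A s := by
    intro y
    simp only [hFdef, Finset.mem_biUnion, Finset.mem_filter]
  have hF : F ⊆ Vb N := by
    intro y hy
    obtain ⟨x, hx, h1, h2⟩ := (hmem y).1 hy
    exact hV x hx y h1 h2
  refine ⟨hF, ?_⟩
  obtain ⟨hGb, hDb, _, _⟩ := hG N A
  have hb := bd_Sd hDb s
  have h1 := en_flip (A := A) hF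
  have h2 : ∑ x ∈ X, sf (Sd N A s) x (r x) ≤
      ((BV N).filter (fun b => b ∈ bd (F : Set Site) ∧ b ∈ bd (Pl N A))).card := by
    unfold sf
    rw [← Finset.card_biUnion]
    · refine Finset.card_le_card ?_
      intro b hbm
      rw [Finset.mem_biUnion] at hbm
      obtain ⟨x, hx, hbm⟩ := hbm
      rw [Finset.mem_filter, mem_BQ] at hbm
      obtain ⟨⟨hlo, hhi⟩, hbd⟩ := hbm
      have hbF : b ∈ bd (F : Set Site) := by
        rw [mem_bd] at hbd ⊢
        have e1 : lo b ∈ (F : Set Site) ↔ lo b ∈ Sd N A s := by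
          rw [Finset.mem_coe, hmem]
          exact ⟨fun ⟨_, _, _, h⟩ => h, fun h => ⟨x, hx, hlo, h⟩⟩
        have e2 : hi b ∈ (F : Set Site) ↔ hi b ∈ Sd N A s := by
          rw [Finset.mem_coe, hmem]
          exact ⟨fun ⟨_, _, _, h⟩ => h, fun h => ⟨x, hx, hhi, h⟩⟩
        rw [e1, e2]
        exact hbd
      rw [Finset.mem_filter]
      refine ⟨?_, hbF, hGb ?_⟩
      · exact bd_subset_BV hF hbF
      · rw [← hb]
        exact hbd
    · intro x hx y hy hxy
      rw [Function.onFun, Finset.disjoint_left]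
      intro b h1 h2
      rw [Finset.mem_filter, mem_BQ] at h1 h2
      exact Finset.disjoint_left.1 (hdisj x hx y hy hxy) h1.1.1 h2.1.1
  have h3 : ((BV N).filter (fun b => b ∈ bd (F : Set Site) ∧ b ∉ bd (Pl N A))).card ≤
      ∑ x ∈ X, cut (Sd N A s) x (r x) := by
    unfold cut
    refine le_trans (Finset.card_le_card ?_) Finset.card_biUnion_le
    intro b hbm
    rw [Finset.mem_filter] at hbm
    obtain ⟨_, hbF, hbP⟩ := hbm
    have hbD : lo b ∈ Sd N A s ↔ hi b ∈ Sd N A s := by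
      by_contra hcon
      refine hbP (hGb ?_)
      rw [← hb]
      exact hcon
    rw [Finset.mem_biUnion]
    rw [mem_bd] at hbF
    have hlohi : ∀ x : Site, ∀ R : ℕ, lo b ∈ Qb x R → hi b ∈ Qb x (R + 1) := by
      intro x R h
      rw [mem_Qb] at *
      intro i
      have h4 := h i
      have h5 := Nr1_lo_hi b i
      rw [abs_le] at *
      push_cast
      constructor <;> linarith [h4.1, h4.2, h5.1, h5.2]
    have hhilo : ∀ x : Site, ∀ R : ℕ, hi b ∈ Qb x R → lo b ∈ Qb x (R + 1) := by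
      intro x R h
      rw [mem_Qb] at *
      intro i
      have h4 := h i
      have h5 := Nr1_lo_hi b i
      rw [abs_le] at *
      push_cast
      constructor <;> linarith [h4.1, h4.2, h5.1, h5.2]
    by_cases hl : lo b ∈ F
    · have hh : hi b ∉ F := fun h => hbF ⟨fun _ => h, fun _ => hl⟩
      obtain ⟨x, hx, h4, h5⟩ := (hmem _).1 hl
      have h6 : hi b ∉ Qb x (r x) := fun h => hh ((hmem _).2 ⟨x, hx, h, hbD.1 h5⟩)
      refine ⟨x, hx, ?_⟩
      rw [Finset.mem_filter, mem_BQ]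
      exact ⟨⟨Qb_mono x (Nat.le_succ _) h4, hlohi x _ h4⟩, Or.inl ⟨h4, h5, h6⟩⟩
    · have hh : hi b ∈ F := by
        by_contra h
        exact hbF ⟨fun h' => absurd h' hl, fun h' => absurd h' h⟩
      obtain ⟨x, hx, h4, h5⟩ := (hmem _).1 hh
      have h6 : lo b ∉ Qb x (r x) := fun h => hl ((hmem _).2 ⟨x, hx, h, hbD.2 h5⟩)
      refine ⟨x, hx, ?_⟩
      rw [Finset.mem_filter, mem_BQ]
      exact ⟨⟨hhilo x _ h4, Qb_mono x (Nat.le_succ _) h4⟩, Or.inr ⟨h4, h5, h6⟩⟩
  omega

end Pool.ISH
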