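import Pool.Agent.H40.ISH.Stmts

/-!
Project ISH, module TY1: the exponential moment of the size of the interface and of the large
contours.
-/

set_option linter.unusedVariables false

namespace Pool.ISH

open MeasureTheory Filter Topology
open scoped Classical Pointwise

/-- TY1 -/
theorem ty1 (hF : FLTStmt) (hL : LAMStmt) (hC : CLAStmt) : TY1Stmt := by
  obtain ⟨C, hC⟩ := hC
  refine ⟨C + 19, C + 1, by positivity, fun β hβ N hN => ?_⟩
  obtain ⟨Φ, hΦ⟩ := hF N
  set P := (Vb N).powerset with hP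
  have hC0 : (0 : ℝ) ≤ C := Nat.cast_nonneg C
  have hβ1 : (1 : ℝ) ≤ β := by linarith
  have hNr : (1 : ℝ) ≤ N := by exact_mod_cast hN
  have hZ : 0 ≤ ZZ β N P := Finset.sum_nonneg fun A _ => (wt_pos β N A).le
  set E : ℝ := Real.exp (2 * β * (2 * (N : ℝ) + 1) ^ 2) with hE
  set f : Finset Site → ℝ := fun A => wt β N A * Real.exp (β * lg N A) with hf
  have hmaps : ∀ A ∈ P, Lam N A ∈ P.image (Lam N) := fun A hA => Finset.mem_image_of_mem _ hA
  have h1 : ∑ A ∈ P, f A = ∑ Λ ∈ P.image (Lam N), ∑ A ∈ P.filter (fun A => Lam N A = Λ), f A :=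
    (Finset.sum_fiberwise_of_maps_to hmaps _).symm
  have h2 : ∀ Λ ∈ P.image (Lam N), ∑ A ∈ P.filter (fun A => Lam N A = Λ), f A ≤
      Real.exp (- (β * (Λ.card : ℝ))) * (E * ZZ β N P) := by
    intro Λ _
    have h3 : ∀ A ∈ P.filter (fun A => Lam N A = Λ), f A ≤
        Real.exp (- (β * (Λ.card : ℝ))) * (E * wt β N (symmDiff A (Φ Λ))) := by
      intro A hA
      rw [Finset.mem_filter, hP, Finset.mem_powerset] at hA
      obtain ⟨hA, rfl⟩ := hA
      obtain ⟨h4, h5⟩ := hΦ A hA
      have h6 : (en N (symmDiff A (Φ (Lam N A))) : ℝ) + lg N A ≤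
          en N A + (2 * (N : ℝ) + 1) ^ 2 := by exact_mod_cast h5
      obtain ⟨_, h7, _⟩ := hL N A hN
      rw [h7]
      simp only [hf, hE]
      unfold wt
      rw [← Real.exp_add, ← Real.exp_add, ← Real.exp_add]
      apply Real.exp_le_exp.2
      nlinarith
    refine (Finset.sum_le_sum h3).trans ?_
    rw [← Finset.mul_sum, ← Finset.mul_sum]
    refine mul_le_mul_of_nonneg_left (mul_le_mul_of_nonneg_left ?_ (Real.exp_pos _).le)
      (Real.exp_pos _).le
    have hinj : Set.InjOn (fun A => symmDiff A (Φ Λ))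
        (P.filter (fun A => Lam N A = Λ) : Finset (Finset Site)) := by
      intro A _ B _ hAB
      have := congrArg (fun X => symmDiff X (Φ Λ)) hAB
      simpa only [symmDiff_symmDiff_cancel_right] using this
    rw [← Finset.sum_image (f := fun A => wt β N A) hinj]
    unfold ZZ
    refine Finset.sum_le_sum_of_subset_of_nonneg ?_ fun A _ _ => (wt_pos β N A).le
    intro B hB
    rw [Finset.mem_image] at hB
    obtain ⟨A, hA, rfl⟩ := hB
    rw [Finset.mem_filter, hP, Finset.mem_powerset] at hA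
    obtain ⟨hA, rfl⟩ := hA
    rw [hP, Finset.mem_powerset]
    exact symmDiff_subset_Vb hA (hΦ A hA).1
  have h3 : ∑ Λ ∈ P.image (Lam N), Real.exp (- (β * (Λ.card : ℝ))) ≤
      Real.exp (C * N) * 2 := by
    have hmaps : ∀ Λ ∈ P.image (Lam N), Λ.card ∈ Finset.range ((BV N).card + 1) := by
      intro Λ hΛ
      rw [Finset.mem_image] at hΛ
      obtain ⟨A, _, rfl⟩ := hΛ
      rw [Finset.mem_range, Nat.lt_succ_iff]
      exact Finset.card_le_card (hL N A hN).1
    rw [← Finset.sum_fiberwise_of_maps_to hmaps]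
    have h4 : ∀ s ∈ Finset.range ((BV N).card + 1),
        ∑ Λ ∈ (P.image (Lam N)).filter (fun Λ => Λ.card = s), Real.exp (- (β * (Λ.card : ℝ))) ≤
          Real.exp (C * N) * (1 / 2) ^ s := by
      intro s _
      have h5 : ∑ Λ ∈ (P.image (Lam N)).filter (fun Λ => Λ.card = s),
          Real.exp (- (β * (Λ.card : ℝ))) =
          (((P.image (Lam N)).filter (fun Λ => Λ.card = s)).card : ℝ) *
            Real.exp (- (β * (s : ℝ))) := by
        rw [← nsmul_eq_mul, ← Finset.sum_const]
        refine Finset.sum_congr rfl fun Λ hΛ => ?_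
        rw [Finset.mem_filter] at hΛ
        rw [hΛ.2]
      rw [h5]
      have h6 : ((P.image (Lam N)).filter (fun Λ => Λ.card = s)).card ≤ 2 ^ (C * (N + s)) := by
        refine le_trans (Finset.card_le_card ?_) (hC N s hN)
        intro Λ hΛ
        rw [Finset.mem_filter, Finset.mem_image] at hΛ
        obtain ⟨⟨A, _, rfl⟩, hs⟩ := hΛ
        rw [Finset.mem_filter, Finset.mem_powerset]
        exact ⟨(hL N A hN).1, hs, (hL N A hN).2.2⟩
      have h7 : (((P.image (Lam N)).filter (fun Λ => Λ.card = s)).card : ℝ) ≤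
          (2 : ℝ) ^ (C * (N + s)) := by exact_mod_cast h6
      have h8 : (2 : ℝ) ≤ Real.exp 1 := by
        have := Real.add_one_le_exp (1 : ℝ)
        linarith
      have h9 : (2 : ℝ) ^ (C * (N + s)) ≤ Real.exp (C * (N + s)) := by
        calc (2 : ℝ) ^ (C * (N + s)) ≤ (Real.exp 1) ^ (C * (N + s)) := by gcongr
          _ = Real.exp (C * (N + s)) := by
              rw [← Real.exp_nat_mul]
              push_cast
              ring_nf
      have h10 : Real.exp (- (s : ℝ)) ≤ (1 / 2) ^ s := by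
        rw [one_div, inv_pow, Real.exp_neg]
        apply inv_anti₀ (by positivity)
        calc (2 : ℝ) ^ s ≤ (Real.exp 1) ^ s := by gcongr
          _ = Real.exp s := by rw [← Real.exp_nat_mul]; ring_nf
      calc (((P.image (Lam N)).filter (fun Λ => Λ.card = s)).card : ℝ) *
            Real.exp (- (β * (s : ℝ)))
          ≤ Real.exp (C * (N + s)) * Real.exp (- (β * (s : ℝ))) :=
            mul_le_mul_of_nonneg_right (h7.trans h9) (Real.exp_pos _).le
        _ = Real.exp (C * N) * Real.exp (C * s - β * s) := by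
            rw [← Real.exp_add, ← Real.exp_add]
            congr 1
            ring
        _ ≤ Real.exp (C * N) * Real.exp (- (s : ℝ)) := by
            refine mul_le_mul_of_nonneg_left (Real.exp_le_exp.2 ?_) (Real.exp_pos _).le
            have : (0 : ℝ) ≤ s := Nat.cast_nonneg _
            nlinarith
        _ ≤ Real.exp (C * N) * (1 / 2) ^ s :=
            mul_le_mul_of_nonneg_left h10 (Real.exp_pos _).le
    refine (Finset.sum_le_sum h4).trans ?_
    rw [← Finset.mul_sum]
    exact mul_le_mul_of_nonneg_left (sum_geometric_two_le _) (Real.exp_pos _).le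
  have h4 : ∑ A ∈ P, f A ≤ (Real.exp (C * N) * 2) * (E * ZZ β N P) := by
    rw [h1]
    refine (Finset.sum_le_sum h2).trans ?_
    rw [← Finset.sum_mul]
    exact mul_le_mul_of_nonneg_right h3 (mul_nonneg (Real.exp_pos _).le hZ)
  refine h4.trans ?_
  rw [← mul_assoc]
  refine mul_le_mul_of_nonneg_right ?_ hZ
  have h5 : (2 : ℝ) ≤ Real.exp (β * N) := by
    have h6 := Real.add_one_le_exp (β * (N : ℝ))
    nlinarith
  calc Real.exp (C * N) * 2 * E ≤ Real.exp (C * N) * Real.exp (β * N) * E := by gcongr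
    _ = Real.exp (C * N + β * N + 2 * β * (2 * (N : ℝ) + 1) ^ 2) := by
        rw [hE, ← Real.exp_add, ← Real.exp_add]
    _ ≤ Real.exp ((C + 19) * β * (N : ℝ) ^ 2) := by
        apply Real.exp_le_exp.2
        have h6 : (N : ℝ) ≤ (N : ℝ) ^ 2 := by nlinarith
        have h7 : (2 * (N : ℝ) + 1) ^ 2 ≤ 9 * (N : ℝ) ^ 2 := by nlinarith
        have h8 : (C : ℝ) * N ≤ C * (β * (N : ℝ) ^ 2) := by
          apply mul_le_mul_of_nonneg_left _ hC0
          nlinarith
        have h9 : β * (N : ℝ) ≤ β * (N : ℝ) ^ 2 := mul_le_mul_of_nonneg_left h6 (by linarith)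
        have h10 : 2 * β * (2 * (N : ℝ) + 1) ^ 2 ≤ 2 * β * (9 * (N : ℝ) ^ 2) :=
          mul_le_mul_of_nonneg_left h7 (by linarith)
        nlinarith

end Pool.ISH
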