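import Pool.Agent.H18.ISH.SQE
import Pool.Agent.H18.ISH.BEL
import Pool.Agent.H12.ISH.GAM
import Pool.Agent.H12.ISH.INT
import Pool.Agent.H22.ISH.KOM
import Pool.Agent.H7.ISH.CNT
import Pool.Agent.H97.ISH.ROT
import Pool.Agent.H13.ISH.CLA
import Pool.Agent.H97.ISH.DET
import Pool.Agent.H13.ISH.ENT
import Pool.Agent.H7.ISH.LWH
import Pool.Agent.H13.ISH.ISO
import Pool.Agent.H95.ISH.RDA
import Pool.Agent.H97.ISH.RDB
import Pool.Agent.H18.ISH.LEN
import Pool.Agent.H85.ISH.SEL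
import Pool.Agent.H43.ISH.GEO
import Pool.Agent.H4.ISH.HD1
import Pool.Agent.H25.ISH.SEG
import Pool.Agent.H25.ISH.IVT
import Pool.Agent.H7.ISH.BPI
import Pool.Agent.H25.ISH.TIL
import Pool.Agent.H22.ISH.LAM
import Pool.Agent.H22.ISH.FLT
import Pool.Agent.H40.ISH.TY1
import Pool.Agent.H77.ISH.SMC
import Pool.Agent.H50.ISH.TY2
import Pool.Agent.H18.ISH.ETA
import Pool.Agent.H77.ISH.MAG
import Pool.Agent.H13.ISH.PUR
import Pool.Agent.H8.ISH.CLB
import Pool.Agent.H40.ISH.CPU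
import Pool.Agent.H40.ISH.REM
import Pool.Agent.H40.ISH.DAT
import Pool.Agent.H40.ISH.PSM
import Pool.Agent.H40.ISH.DEN
import Pool.Agent.H95.ISH.OUT
import Pool.Agent.H3.ISH.PLQ
import Pool.Agent.H95.ISH.PLC
import Pool.Agent.H95.ISH.FGR
import Pool.Agent.H3.ISH.TOP
import Pool.Agent.H18.ISH.BLW
import Pool.Agent.H40.ISH.LIT
import Pool.Agent.H50.ISH.NEA
import Pool.Agent.H8.ISH.T1
import Pool.Agent.H95.ISH.SUR
import Pool.Agent.H47.ISH.ZON
import Pool.Agent.H95.ISH.HD2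
import Pool.Agent.H47.ISH.T2

/-!
Project ISH: the modules put together.
-/

set_option linter.unusedVariables false

namespace Pool.ISH

theorem t_gam : GAMStmt := gam sqe bel
theorem t_int : INTStmt := int bel
theorem t_kom : KOMStmt := kom t_gam
theorem t_cla : CLAStmt := cla cntt rot
theorem t_ent : ENTStmt := ent cntt det
theorem t_iso : ISOStmt := iso lwh
theorem t_rda : RDAStmt := rda t_iso
theorem t_rad : RADStmt := rad t_rda rdb len
theorem t_svl : SVLStmt := svl t_iso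
theorem t_ivt : IVTStmt := ivt seg_ok
theorem t_lam : LAMStmt := lam t_kom
theorem t_flt : FLTStmt := flt t_gam t_kom t_int sqe
theorem t_ty1 : TY1Stmt := ty1 t_flt t_lam t_cla
theorem t_smc : SMCStmt := smc t_kom t_int sqe
theorem t_ty2 : TY2Stmt := ty2 t_smc cntt
theorem t_eta : ETAStmt := eta t_gam t_kom t_int sqe
theorem t_mag : MAGStmt := mag t_eta bpi til seg_ok
theorem t_pur : PURStmt := pur t_eta bpi til
theorem t_clb : CLBStmt := clb t_ty1 t_ty2 t_mag t_ivt seg_ok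
theorem t_cpu : CPUStmt := cpu t_clb t_ty1 t_ty2 t_pur
theorem t_rem : REMStmt := rem t_gam
theorem t_geo : GEOStmt := geo sel inr
theorem t_dat (cmp : CMPStmt) : DATStmt :=
  dat t_gam t_geo t_rad t_svl rtg t_rem cmp seg_ok
theorem t_psm : PSMStmt := psm t_ent
theorem t_den (cmp : CMPStmt) : DENStmt := den (t_dat cmp) t_cpu t_psm
theorem t_out : OUTStmt := out t_gam
theorem t_top : TOPStmt := top fgr plq plc
theorem t_blw : BLWStmt := blw t_top plc t_gam
theorem t_t1' (cmp : CMPStmt) : T1Stmt := t1 (t_den cmp) t_out t_blw lit nea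
theorem t_zon : ZONStmt := zon sur
theorem t_hd2 : HD2Stmt := hd2 t_zon t_top
theorem t_hd1 : HD1Stmt := hd1 sur t_top t_blw t_gam
theorem t_t2' (cmp : CMPStmt) : T2Stmt := t2 (t_t1' cmp) t_hd1 t_hd2 lit nea

end Pool.ISH
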