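import Pool.Agent.H40.ISH.Stmts2

/-!
Project ISH, module LVS: an inequality for the densities of the layers.
-/

set_option linter.unusedVariables false

namespace Pool.ISH

open MeasureTheory Filter Topology
open scoped Classical Pointwise

theorem lvs_a {f : ℝ} (h0 : 0 ≤ f) (h1 : f ≤ 1) : 0 ≤ Real.sqrt f - f := by
  have h2 := Real.sqrt_nonneg f
  have h3 := Real.sq_sqrt h0
  have h4 : Real.sqrt f ≤ 1 := Real.sqrt_le_one.2 h1
  nlinarith

theorem lvs_b {f : ℝ} (h0 : 1 / 4 < f) (h1 : f ≤ 1) : 1 - f ≤ 8 * (Real.sqrt f - f) := by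
  have h2 := Real.sqrt_nonneg f
  have h3 := Real.sq_sqrt (show 0 ≤ f by linarith)
  have h4 : Real.sqrt f ≤ 1 := Real.sqrt_le_one.2 h1
  have h5 : 1 / 2 ≤ Real.sqrt f := by
    apply Real.le_sqrt_of_sq_le
    norm_num
    exact h0.le
  nlinarith

theorem lvs_c {f : ℝ} (h0 : 0 ≤ f) (h1 : f < 3 / 4) : f ≤ 8 * (Real.sqrt f - f) := by
  have h2 := Real.sqrt_nonneg f
  have h3 := Real.sq_sqrt h0
  have h4 : Real.sqrt f ≤ 7 / 8 := by
    apply Real.sqrt_le_iff.2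
    constructor
    · norm_num
    · norm_num
      linarith
  nlinarith

theorem lvs_count (N t : ℕ) (x : ℝ) (hx : 0 ≤ x) :
    ∑ z ∈ Finset.Icc 1 N, |(if z ≤ t then (1 : ℝ) else 0) - (if (z : ℝ) ≤ x then 1 else 0)| ≤
      |(t : ℝ) - x| + 1 := by
  have h1 : ∑ z ∈ Finset.Icc 1 N, |(if z ≤ t then (1 : ℝ) else 0) -
      (if (z : ℝ) ≤ x then 1 else 0)| =
      ∑ z ∈ Finset.Icc 1 N, (if (z ≤ t ∧ ¬ (z : ℝ) ≤ x) ∨ (¬ z ≤ t ∧ (z : ℝ) ≤ x)
        then (1 : ℝ) else 0) := by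
    refine Finset.sum_congr rfl fun z _ => ?_
    by_cases h1 : z ≤ t <;> by_cases h2 : (z : ℝ) ≤ x <;> simp [h1, h2]
  rw [h1, Finset.sum_boole]
  have hfl : (⌊x⌋₊ : ℝ) ≤ x := Nat.floor_le hx
  have hfl2 : x < ⌊x⌋₊ + 1 := Nat.lt_floor_add_one x
  rcases le_total t ⌊x⌋₊ with h | h
  · have h2 : (Finset.Icc 1 N).filter
        (fun z => (z ≤ t ∧ ¬ (z : ℝ) ≤ x) ∨ (¬ z ≤ t ∧ (z : ℝ) ≤ x)) ⊆
        Finset.Ioc t ⌊x⌋₊ := by
      intro z hz
      rw [Finset.mem_filter] at hz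
      rw [Finset.mem_Ioc]
      rcases hz.2 with h3 | h3
      · exfalso
        apply h3.2
        calc (z : ℝ) ≤ t := by exact_mod_cast h3.1
          _ ≤ ⌊x⌋₊ := by exact_mod_cast h
          _ ≤ x := hfl
      · exact ⟨by omega, Nat.le_floor h3.2⟩
    have h3 := Finset.card_le_card h2
    rw [Nat.card_Ioc] at h3
    have h4 : ((((Finset.Icc 1 N).filter
        (fun z => (z ≤ t ∧ ¬ (z : ℝ) ≤ x) ∨ (¬ z ≤ t ∧ (z : ℝ) ≤ x))).card : ℕ) : ℝ) ≤
        (⌊x⌋₊ : ℝ) - t := by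
      have h5 : (((⌊x⌋₊ - t : ℕ) : ℕ) : ℝ) = (⌊x⌋₊ : ℝ) - t := by
        rw [Nat.cast_sub h]
      rw [← h5]
      exact_mod_cast h3
    have h5 : x - t ≤ |(t : ℝ) - x| := by
      rw [abs_sub_comm]
      exact le_abs_self _
    linarith
  · have h2 : (Finset.Icc 1 N).filter
        (fun z => (z ≤ t ∧ ¬ (z : ℝ) ≤ x) ∨ (¬ z ≤ t ∧ (z : ℝ) ≤ x)) ⊆
        Finset.Ioc ⌊x⌋₊ t := by
      intro z hz
      rw [Finset.mem_filter] at hz
      rw [Finset.mem_Ioc]
      rcases hz.2 with h3 | h3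
      · refine ⟨?_, h3.1⟩
        by_contra h4
        push Not at h4
        apply h3.2
        calc (z : ℝ) ≤ ⌊x⌋₊ := by exact_mod_cast h4
          _ ≤ x := hfl
      · exfalso
        apply h3.1
        exact (Nat.le_floor h3.2).trans h
    have h3 := Finset.card_le_card h2
    rw [Nat.card_Ioc] at h3
    have h4 : ((((Finset.Icc 1 N).filter
        (fun z => (z ≤ t ∧ ¬ (z : ℝ) ≤ x) ∨ (¬ z ≤ t ∧ (z : ℝ) ≤ x))).card : ℕ) : ℝ) ≤
        (t : ℝ) - ⌊x⌋₊ := by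
      have h5 : (((t - ⌊x⌋₊ : ℕ) : ℕ) : ℝ) = (t : ℝ) - ⌊x⌋₊ := by
        rw [Nat.cast_sub h]
      rw [← h5]
      exact_mod_cast h3
    have h5 : t - x ≤ |(t : ℝ) - x| := le_abs_self _
    linarith

/-- LVS -/
theorem lvs : LVSStmt := by
  intro ε hε
  refine ⟨ε / 70, by positivity, ⌈2 / ε⌉₊ + 1, fun N hN b hb0 hb1 f g hf hg hH hV hinv => ?_⟩
  set η : ℝ := ε / 70 with hη
  have hη0 : 0 < η := by positivity
  have hN1 : 1 ≤ N := by omega
  have hNr : (1 : ℝ) ≤ N := by exact_mod_cast hN1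
  have hNε : 2 ≤ ε * N := by
    have h1 : 2 / ε ≤ N := by
      refine (Nat.le_ceil _).trans ?_
      have : ⌈2 / ε⌉₊ ≤ N := by omega
      exact_mod_cast this
    rw [div_le_iff₀ hε] at h1
    linarith
  set S1 := ∑ z ∈ Finset.Icc 1 N, Real.sqrt (f z) with hS1
  set S0 := ∑ z ∈ Finset.Icc 1 N, f z with hS0
  have hS1n : 0 ≤ S1 := Finset.sum_nonneg fun z _ => Real.sqrt_nonneg _
  have h1 : S1 + g ≤ (b / 8 + η / 8) * N := by
    have h2 : 8 * N * (S1 + g) ≤ 4 * (2 * N + 1) * (S1 + g) := by nlinarith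
    have h3 : 8 * N * (S1 + g) ≤ (b + η) * (N : ℝ) ^ 2 := h2.trans hH
    have h4 : (b + η) * (N : ℝ) ^ 2 = 8 * N * ((b / 8 + η / 8) * N) := by ring
    rw [h4] at h3
    exact le_of_mul_le_mul_left h3 (by positivity)
  have hD : ∑ z ∈ Finset.Icc 1 N, (Real.sqrt (f z) - f z) = S1 - S0 := by
    rw [Finset.sum_sub_distrib]
  have hD0 : 0 ≤ S1 - S0 := by
    rw [← hD]
    exact Finset.sum_nonneg fun z _ => lvs_a (hf z).1 (hf z).2
  have hDk : S1 - S0 ≤ 2 * η * N := by nlinarith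
  have hgk : g ≤ 2 * η * N := by nlinarith
  -- the top full layer
  obtain ⟨t, ht⟩ : ∃ t : ℕ, ∀ z ∈ Finset.Icc 1 N, (z ≤ t → 1 / 4 < f z) ∧
      (t < z → f z < 3 / 4) := by
    by_cases hF : ((Finset.Icc 1 N).filter (fun z => 3 / 4 ≤ f z)).Nonempty
    · obtain ⟨t, ht, hmax⟩ := Finset.exists_max_image _ (fun z => z) hF
      rw [Finset.mem_filter, Finset.mem_Icc] at ht
      refine ⟨t, fun z hz => ?_⟩
      rw [Finset.mem_Icc] at hz
      constructor
      · intro hzt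
        rcases eq_or_lt_of_le hzt with h | h
        · rw [h]
          linarith [ht.2]
        · by_contra hcon
          push Not at hcon
          exact hinv z t hz.1 h ht.1.2 ⟨hcon, ht.2⟩
      · intro hzt
        by_contra hcon
        push Not at hcon
        have := hmax z (by rw [Finset.mem_filter, Finset.mem_Icc]; exact ⟨hz, hcon⟩)
        omega
    · refine ⟨0, fun z hz => ⟨fun h => ?_, fun _ => ?_⟩⟩
      · rw [Finset.mem_Icc] at hz
        omega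
      · by_contra hcon
        push Not at hcon
        exact hF ⟨z, by rw [Finset.mem_filter]; exact ⟨hz, hcon⟩⟩
  obtain ⟨t', ht'⟩ : ∃ t', t' = min t N := ⟨_, rfl⟩
  have ht2 : ∀ z ∈ Finset.Icc 1 N, |f z - (if z ≤ t' then 1 else 0)| ≤
      8 * (Real.sqrt (f z) - f z) := by
    intro z hz
    have hz' := Finset.mem_Icc.1 hz
    by_cases h : z ≤ t'
    · rw [if_pos h, abs_sub_comm, abs_of_nonneg (by linarith [(hf z).2])]
      exact lvs_b ((ht z hz).1 (by omega)) (hf z).2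
    · rw [if_neg h, sub_zero, abs_of_nonneg (hf z).1]
      exact lvs_c (hf z).1 ((ht z hz).2 (by omega))
  have hsum : ∑ z ∈ Finset.Icc 1 N, |f z - (if z ≤ t' then 1 else 0)| ≤ 16 * η * N := by
    refine (Finset.sum_le_sum ht2).trans ?_
    rw [← Finset.mul_sum, hD]
    linarith
  have hcnt : ∑ z ∈ Finset.Icc 1 N, (if z ≤ t' then (1 : ℝ) else 0) = t' := by
    rw [Finset.sum_boole]
    have : (Finset.Icc 1 N).filter (fun z => z ≤ t') = Finset.Icc 1 t' := by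
      ext z
      rw [Finset.mem_filter, Finset.mem_Icc, Finset.mem_Icc]
      omega
    rw [this, Nat.card_Icc]
    simp
  have habs : |S0 - t'| ≤ 16 * η * N := by
    rw [hS0, ← hcnt, ← Finset.sum_sub_distrib]
    exact (Finset.abs_sum_le_sum_abs _ _).trans hsum
  have habs2 := abs_le.1 habs
  have hx : |(t' : ℝ) - b * N / 8| ≤ 18 * η * N := by
    rw [abs_le]
    constructor
    · nlinarith
    · nlinarith
  constructor
  · nlinarith
  · have h5 : ∀ z ∈ Finset.Icc 1 N, |f z - (if (z : ℝ) ≤ b * N / 8 then 1 else 0)| ≤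
        |f z - (if z ≤ t' then 1 else 0)| +
          |(if z ≤ t' then (1 : ℝ) else 0) - (if (z : ℝ) ≤ b * N / 8 then 1 else 0)| :=
      fun z _ => abs_sub_le _ _ _
    refine (Finset.sum_le_sum h5).trans ?_
    rw [Finset.sum_add_distrib]
    have h6 := lvs_count N t' (b * N / 8) (by positivity)
    have h7 : 16 * η * N + (18 * η * N + 1) ≤ ε * N := by
      rw [hη]
      nlinarith
    linarith

end Pool.ISH
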