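import Pool.Agent.H40.ISH.Stmts2
import Pool.Agent.H47.ISH.T2

/-!
Project ISH, module T4: the interface is near the zero temperature shape at low temperature.
-/

set_option linter.unusedVariables false

namespace Pool.ISH

open MeasureTheory Filter Topology
open scoped Classical Pointwise

theorem t4_prob_le (hl : LITStmt) (β : ℝ) (N : ℕ) (m : ℤ) (S S1 S2 : Finset Site → Prop)
    (h : ∀ A ∈ Cf N m, S A → S1 A ∨ S2 A) : prob β N m S ≤ prob β N m S1 + prob β N m S2 := by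
  rw [hl, hl, hl, ← add_div]
  refine div_le_div_of_nonneg_right ?_ (t2_ZZ_nonneg _ _ _)
  unfold ZZ
  refine (Finset.sum_le_sum_of_subset_of_nonneg (t := (Cf N m).filter (fun A => S1 A) ∪
    (Cf N m).filter (fun A => S2 A)) ?_ (fun A _ _ => (wt_pos β N A).le)).trans ?_
  · intro A hA
    rw [Finset.mem_filter] at hA
    rw [Finset.mem_union, Finset.mem_filter, Finset.mem_filter]
    rcases h A hA.1 hA.2 with h1 | h1
    · exact Or.inl ⟨hA.1, h1⟩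
    · exact Or.inr ⟨hA.1, h1⟩
  · rw [← Finset.sum_union_inter]
    exact le_add_of_nonneg_right (Finset.sum_nonneg fun A _ => (wt_pos β N A).le)

/-- T4 -/
theorem t4 (h1 : T1Stmt) (hG : LGCStmt) (hS : SHPStmt) (hV : VOLStmt) (hH : HDUStmt)
    (hB : BLWStmt) (hl : LITStmt) (hn : NEBStmt) : T4Stmt := by
  obtain ⟨β₁, δ, hδ, h1⟩ := h1
  intro ε hε
  obtain ⟨η, hη, N₁, hN₁⟩ := hH ε hε δ hδ
  obtain ⟨r, hr, hrη⟩ : ∃ r : ℝ, 0 < r ∧ ENNReal.ofReal r ≤ η := by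
    by_cases hη' : η = ⊤
    · exact ⟨1, one_pos, by rw [hη']; exact le_top⟩
    · exact ⟨η.toReal, ENNReal.toReal_pos hη.ne' hη', by rw [ENNReal.ofReal_toReal hη']⟩
  obtain ⟨η', θ, hη', hθ, N₂, hN₂⟩ := hS (r / 2) (by positivity)
  obtain ⟨β₂, hβ₂⟩ := hG η' hη' θ hθ
  refine ⟨max β₁ β₂, fun β hβ b hb0 hb1 m hm => ?_⟩
  have hT := h1 β ((le_max_left _ _).trans hβ) b hb0 hb1 m hm
  obtain ⟨N₃, hN₃⟩ := hβ₂ β ((le_max_right _ _).trans hβ)
  have hsum : Tendsto (fun N : ℕ =>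
      (1 - prob β N (m N) (fun A => Dense δ ((Nat.log 2 N + 1) ^ 6) N A))
      + 1 / (N : ℝ)) atTop (𝓝 ((1 - 1) + 0)) :=
    (tendsto_const_nhds.sub hT).add tendsto_one_div_atTop_nhds_zero_nat
  rw [sub_self, add_zero] at hsum
  refine tendsto_of_tendsto_of_tendsto_of_le_of_le' tendsto_const_nhds hsum
    (Eventually.of_forall fun N => t2_prob_nonneg hl _ _ _ _) ?_
  filter_upwards [eventually_ge_atTop N₁, eventually_ge_atTop N₂, eventually_ge_atTop N₃,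
    eventually_ge_atTop 1, eventually_ge_atTop ⌈8 / r⌉₊] with N hN1 hN2 hN3 hN4 hN5
  obtain ⟨hm2, hne⟩ := hn N b (m N) hN4 hb0 hb1 (hm N)
  have hpos : 0 < ZZ β N (Cf N (m N)) := Finset.sum_pos (fun A _ => wt_pos β N A) hne
  have hNr : (1 : ℝ) ≤ N := by exact_mod_cast hN4
  rw [← t2_prob_not hl β N (m N) hne]
  have hbad : prob β N (m N) (fun A => ¬ ((lg N A : ℝ) ≤ (4 + b + η') * (N : ℝ) ^ 2 ∧
      (sm N A : ℝ) ≤ θ * (N : ℝ) ^ 3)) ≤ 1 / (N : ℝ) := by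
    rw [hl, div_le_iff₀ hpos]
    refine le_trans (le_of_eq ?_) (hN₃ N hN3 b hb0 hb1 (m N) hm2 hne)
    congr 1
    ext A
    simp only [Finset.mem_filter]
  refine (t4_prob_le hl β N (m N) _ (fun A => ¬ Dense δ ((Nat.log 2 N + 1) ^ 6) N A)
    (fun A => ¬ ((lg N A : ℝ) ≤ (4 + b + η') * (N : ℝ) ^ 2 ∧
      (sm N A : ℝ) ≤ θ * (N : ℝ) ^ 3)) fun A hA hS => ?_).trans (add_le_add le_rfl hbad)
  by_contra hcon
  push Not at hcon
  obtain ⟨hD, hlg, hsm⟩ := hcon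
  refine absurd hS (not_lt.2 ?_)
  have hAV : A ⊆ Vb N := by
    unfold Cf at hA
    rw [Finset.mem_filter, Finset.mem_powerset] at hA
    exact hA.1
  refine hN₁ N hN1 b hb0 hb1 A hAV hD ?_
  refine (hV N A b hN4 hb0 hb1).trans (le_trans ?_ hrη)
  apply ENNReal.ofReal_le_ofReal
  rw [(hB N A hN4).1]
  have h3 := hN₂ N hN2 b hb0 hb1 (m N) hm2 A hA hlg hsm
  have h4 : ((Dis N b (Dp N A)).card : ℝ) / (N : ℝ) ^ 3 ≤ r / 2 := by
    rw [div_le_iff₀ (by positivity)]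
    exact h3
  have h5 : 4 / (N : ℝ) ≤ r / 2 := by
    rw [div_le_iff₀ (by positivity)]
    have h6 : 8 / r ≤ N := (Nat.le_ceil _).trans (by exact_mod_cast hN5)
    rw [div_le_iff₀ hr] at h6
    linarith
  linarith

end Pool.ISH
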