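import Pool.Agent.H40.ISH.Final
import Pool.Agent.H5.ISH.SUM
import Pool.Agent.H5.ISH.VRT
import Pool.Agent.H5.ISH.PER
import Pool.Agent.H94.ISH.ISW
import Pool.Agent.H38.ISH.HDL
import Pool.Agent.H40.ISH.LVS
import Pool.Agent.H31.ISH.STB
import Pool.Agent.H87.ISH.ESL
import Pool.Agent.H70.ISH.FLK
import Pool.Agent.H70.ISH.NLA
import Pool.Agent.H94.ISH.TYS
import Pool.Agent.H70.ISH.ADJ
import Pool.Agent.H92.ISH.CLS
import Pool.Agent.H87.ISH.LGC
import Pool.Agent.H87.ISH.SHP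
import Pool.Agent.H94.ISH.VOL
import Pool.Agent.H70.ISH.SFB
import Pool.Agent.H70.ISH.HDU
import Pool.Agent.H70.ISH.NEB
import Pool.Agent.H40.ISH.T4

/-!
Project ISH, part 2: the modules put together.
-/

set_option linter.unusedVariables false

namespace Pool.ISH

theorem t_isw : ISWStmt := isw lwh
theorem t_hdl : HDLStmt := hdl sum vrt per
theorem t_stb : STBStmt := stb sum vrt per lvs
theorem t_flk : FLKStmt := flk t_gam t_kom t_int sqe
theorem t_nla : NLAStmt := nla t_lam t_cla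
theorem t_tys : TYSStmt := tys t_flt t_lam t_cla
theorem t_adj : ADJStmt := adj t_ivt
theorem t_cls : CLSStmt := cls t_flk t_nla t_ty1 t_ty2 t_adj esl seg_ok vrt
theorem t_lgc : LGCStmt := lgc t_cls t_tys t_ty2
theorem t_shp : SHPStmt := shp t_flk t_hdl t_isw t_stb
theorem t_hdu : HDUStmt := hdu t_hd1 t_hd2 sfb
theorem t_t4 : T4Stmt := t4 t_t1 t_lgc t_shp vol t_hdu t_blw lit neb

end Pool.ISH
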