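import Pool.Agent.H40.ISH.Stmts

/-!
Project ISH, module CMP: restoring the number of plus sites by flipping an initial segment of a
small cube.
-/

set_option linter.unusedVariables false

namespace Pool.ISH

open MeasureTheory Filter Topology
open scoped Classical Pointwise

/-- a large cube in which three quarters of the sites are good contains a small cube with many
good sites -/
theorem cmp_sub (P : Site → Prop) (z₀ : Site) {l a : ℕ} (ha : 1 ≤ a) (hl : 48 * a ≤ l)
    (h : 3 * l ^ 3 ≤ 4 * ((cube z₀ l).filter P).card) :
    ∃ z, cube z a ⊆ cube z₀ l ∧ 11 * a ^ 3 ≤ 16 * ((cube z a).filter P).card := by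
  by_contra hcon
  push Not at hcon
  obtain ⟨q, hq⟩ : ∃ q, q = l / a := ⟨_, rfl⟩
  have hQ1 : q * a ≤ l := by rw [hq]; exact Nat.div_mul_le_self l a
  have hQ2 : l < q * a + a := by
    have h1 := Nat.div_add_mod l a
    have h2 := Nat.mod_lt l (show a > 0 by omega)
    rw [hq]
    nlinarith
  set U : Finset (Fin 3 → ℕ) := Fintype.piFinset (fun _ => Finset.range q) with hU
  have hUc : U.card = q ^ 3 := by
    rw [hU, Fintype.card_piFinset]
    simp
  have ha' : (0 : ℤ) < a := by exact_mod_cast ha
  have hsub : ∀ u ∈ U, cube (fun i => z₀ i + a * u i) a ⊆ cube z₀ l := by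
    intro u hu x hx
    rw [mem_cube] at *
    rw [hU, Fintype.mem_piFinset] at hu
    intro i
    have h1 := hx i
    have h2 := Finset.mem_range.1 (hu i)
    have h3 : (a : ℤ) * ((u i : ℤ) + 1) ≤ a * q := by
      apply mul_le_mul_of_nonneg_left _ ha'.le
      exact_mod_cast h2
    have h4 : (q : ℤ) * a ≤ l := by exact_mod_cast hQ1
    have h5 : (0 : ℤ) ≤ a * u i := by positivity
    constructor
    · linarith [h1.1]
    · nlinarith [h1.2]
  have hcov : (cube z₀ l).filter P ⊆
      U.biUnion (fun u => (cube (fun i => z₀ i + a * u i) a).filter P) ∪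
        (cube z₀ l \ cube z₀ (q * a)) := by
    intro x hx
    rw [Finset.mem_filter] at hx
    rw [Finset.mem_union]
    by_cases hxQ : x ∈ cube z₀ (q * a)
    · left
      rw [Finset.mem_biUnion]
      have h1 := mem_cube.1 hxQ
      refine ⟨fun i => ((x i - z₀ i) / a).toNat, ?_, ?_⟩
      · rw [hU, Fintype.mem_piFinset]
        intro i
        rw [Finset.mem_range]
        have h2 : (x i - z₀ i) / a < q := by
          apply Int.ediv_lt_of_lt_mul ha'
          have := (h1 i).2
          push_cast at this
          linarith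
        have h3 : 0 ≤ (x i - z₀ i) / a := Int.ediv_nonneg (by linarith [(h1 i).1]) ha'.le
        omega
      · rw [Finset.mem_filter, mem_cube]
        refine ⟨fun i => ?_, hx.2⟩
        have h3 : 0 ≤ (x i - z₀ i) / a := Int.ediv_nonneg (by linarith [(h1 i).1]) ha'.le
        have h4 : (((x i - z₀ i) / a).toNat : ℤ) = (x i - z₀ i) / a := Int.toNat_of_nonneg h3
        simp only [h4]
        have h5 := Int.mul_ediv_add_emod (x i - z₀ i) a
        have h6 := Int.emod_nonneg (x i - z₀ i) ha'.ne'
        have h7 := Int.emod_lt_of_pos (x i - z₀ i) ha'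
        constructor <;> linarith
    · right
      rw [Finset.mem_sdiff]
      exact ⟨hx.1, hxQ⟩
  have hsubQ : cube z₀ (q * a) ⊆ cube z₀ l := by
    intro x hx
    rw [mem_cube] at *
    intro i
    have h1 := hx i
    have h4 : ((q * a : ℕ) : ℤ) ≤ l := by exact_mod_cast hQ1
    exact ⟨h1.1, by linarith [h1.2]⟩
  have h1 : ((cube z₀ l).filter P).card ≤
      ∑ u ∈ U, ((cube (fun i => z₀ i + a * u i) a).filter P).card +
        (cube z₀ l \ cube z₀ (q * a)).card :=
    (Finset.card_le_card hcov).trans ((Finset.card_union_le _ _).trans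
      (Nat.add_le_add_right Finset.card_biUnion_le _))
  have h2 : (cube z₀ l \ cube z₀ (q * a)).card + (q * a) ^ 3 = l ^ 3 := by
    have := Finset.card_sdiff_add_card_eq_card hsubQ
    rw [card_cube, card_cube] at this
    exact this
  have h3 : 16 * ∑ u ∈ U, ((cube (fun i => z₀ i + a * u i) a).filter P).card ≤
      11 * (q * a) ^ 3 := by
    rw [Finset.mul_sum]
    calc ∑ u ∈ U, 16 * ((cube (fun i => z₀ i + a * u i) a).filter P).card
        ≤ ∑ u ∈ U, 11 * a ^ 3 := Finset.sum_le_sum fun u hu => (hcon _ (hsub u hu)).le
      _ = 11 * (q * a) ^ 3 := by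
          rw [Finset.sum_const, hUc, smul_eq_mul]
          ring
  have h4 : 47 * l ≤ 48 * (q * a) := by omega
  have h5 : (47 * l) ^ 3 ≤ (48 * (q * a)) ^ 3 := Nat.pow_le_pow_left h4 3
  have h6 : (47 * l) ^ 3 = 103823 * l ^ 3 := by ring
  have h7 : (48 * (q * a)) ^ 3 = 110592 * (q * a) ^ 3 := by ring
  have h8 : 1 ≤ l ^ 3 := Nat.one_le_pow _ _ (by omega)
  omega

theorem cmp_flip (A F Q : Finset Site) :
    (symmDiff A F).card ≤ A.card + F.card ∧ A.card ≤ (symmDiff A F).card + F.card ∧
    (symmDiff (symmDiff A F) Q).card + (Q.filter (fun x => x ∈ symmDiff A F)).card =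
      (symmDiff A F).card + (Q.filter (fun x => x ∉ symmDiff A F)).card ∧
    (Q.filter (fun x => x ∈ A)).card ≤ (Q.filter (fun x => x ∈ symmDiff A F)).card + F.card ∧
    (Q.filter (fun x => x ∉ A)).card ≤ (Q.filter (fun x => x ∉ symmDiff A F)).card + F.card := by
  refine ⟨?_, ?_, ?_, ?_, ?_⟩
  · refine (Finset.card_le_card ?_).trans (Finset.card_union_le A F)
    intro x hx
    rw [Finset.mem_symmDiff] at hx
    rw [Finset.mem_union]
    tauto
  · refine (Finset.card_le_card ?_).trans (Finset.card_union_le (symmDiff A F) F)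
    intro x hx
    rw [Finset.mem_union, Finset.mem_symmDiff]
    tauto
  · set B := symmDiff A F
    rw [← Finset.card_union_of_disjoint, ← Finset.card_union_of_disjoint]
    · congr 1
      ext x
      simp only [Finset.mem_union, Finset.mem_symmDiff, Finset.mem_filter]
      tauto
    · rw [Finset.disjoint_left]
      intro x
      simp only [Finset.mem_filter]
      tauto
    · rw [Finset.disjoint_left]
      intro x
      simp only [Finset.mem_symmDiff, Finset.mem_filter]
      tauto
  · refine (Finset.card_le_card ?_).trans (Finset.card_union_le _ F)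
    intro x hx
    simp only [Finset.mem_union, Finset.mem_symmDiff, Finset.mem_filter] at *
    tauto
  · refine (Finset.card_le_card ?_).trans (Finset.card_union_le _ F)
    intro x hx
    simp only [Finset.mem_union, Finset.mem_symmDiff, Finset.mem_filter] at *
    tauto

/-- CMP -/
theorem cmp (hI : IVTStmt) : CMPStmt := by
  intro c hc
  refine ⟨c / 48, by positivity, fun N A F a hN hA hF hP hFa ha => ?_⟩
  rcases Nat.eq_zero_or_pos a with h0 | h0
  · subst h0
    have hF0 : F = ∅ := by
      rw [← Finset.card_eq_zero]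
      omega
    refine ⟨0, ?_, 0, by norm_num, ?_, ?_⟩
    · rw [mem_Vb]
      intro i
      simp
    · intro x hx
      unfold seg at hx
      rw [Finset.mem_filter, mem_cube] at hx
      have := hx.1 0
      simp only [Nat.cast_zero, add_zero] at this
      omega
    · have h1 : seg 0 0 0 = ∅ := by
        ext x
        unfold seg
        rw [Finset.mem_filter, mem_cube]
        simp only [Finset.notMem_empty, iff_false, not_and]
        intro h
        have := h 0
        simp only [Nat.cast_zero, add_zero] at this
        omega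
      rw [h1, hF0]
      simp
  · -- the sign of the change
    have key : ∀ s : Bool, ∃ z, cube z a ⊆ Vb N ∧
        11 * a ^ 3 ≤ 16 * ((cube z a).filter (fun x => (x ∈ A ↔ s = true))).card := by
      intro s
      obtain ⟨z₀, l, hl, hsub, h3⟩ := hP s
      have h48 : 48 * a ≤ l := by
        have h1 : (48 : ℝ) * a ≤ c * N := by
          calc (48 : ℝ) * a ≤ 48 * (c / 48 * N) := by gcongr
            _ = c * N := by ring
        exact_mod_cast h1.trans hl
      obtain ⟨z, hz, h4⟩ := cmp_sub (fun x => (x ∈ A ↔ s = true)) z₀ h0 h48 (by convert h3)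
      exact ⟨z, hz.trans hsub, by convert h4⟩
    have fin : ∀ z, cube z a ⊆ Vb N →
        ((symmDiff A F).card ≤ A.card ∧ A.card ≤ (symmDiff (symmDiff A F) (cube z a)).card ∨
          (symmDiff (symmDiff A F) (cube z a)).card ≤ A.card ∧ A.card ≤ (symmDiff A F).card) →
        ∃ z ∈ Vb N, ∃ k ≤ a ^ 3, seg z a k ⊆ Vb N ∧
          (symmDiff (symmDiff A F) (seg z a k)).card = A.card := by
      intro z hz h
      obtain ⟨k, hk, hk2⟩ := hI z a (symmDiff A F) A.card h
      refine ⟨z, hz ?_, k, hk, (Finset.filter_subset _ _).trans hz, hk2⟩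
      rw [mem_cube]
      intro i
      omega
    rcases le_total (symmDiff A F).card A.card with h | h
    · obtain ⟨z, hz, h1⟩ := key false
      refine fin z hz (Or.inl ⟨h, ?_⟩)
      obtain ⟨e1, e2, e3, e4, e5⟩ := cmp_flip A F (cube z a)
      have e6 : (cube z a).filter (fun x => (x ∈ A ↔ false = true)) =
          (cube z a).filter (fun x => x ∉ A) := by
        refine Finset.filter_congr fun x _ => ?_
        simp
      rw [e6] at h1
      have e7 : ((cube z a).filter (fun x => x ∈ symmDiff A F)).card +
          ((cube z a).filter (fun x => x ∉ symmDiff A F)).card = a ^ 3 := by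
        rw [Finset.card_filter_add_card_filter_not, card_cube]
      omega
    · obtain ⟨z, hz, h1⟩ := key true
      refine fin z hz (Or.inr ⟨?_, h⟩)
      obtain ⟨e1, e2, e3, e4, e5⟩ := cmp_flip A F (cube z a)
      have e6 : (cube z a).filter (fun x => (x ∈ A ↔ true = true)) =
          (cube z a).filter (fun x => x ∈ A) := by
        refine Finset.filter_congr fun x _ => ?_
        simp
      rw [e6] at h1
      have e7 : ((cube z a).filter (fun x => x ∈ symmDiff A F)).card +
          ((cube z a).filter (fun x => x ∉ symmDiff A F)).card = a ^ 3 := by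
        rw [Finset.card_filter_add_card_filter_not, card_cube]
      omega

end Pool.ISH
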