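import Pool.Agent.H40.ISH.Stmts
import Pool.Agent.H40.ISH.DAT

/-!
Project ISH, module CPU: pure cubes in the canonical ensemble.
-/

set_option linter.unusedVariables false

namespace Pool.ISH

open MeasureTheory Filter Topology
open scoped Classical Pointwise

/-- Markov inequality for weighted sums -/
theorem cpu_markov {ι : Type*} (s : Finset ι) (w g : ι → ℝ) (t : ℝ) (hw : ∀ i ∈ s, 0 ≤ w i)
    (hg : ∀ i ∈ s, t ≤ g i) :
    ∑ i ∈ s, w i ≤ Real.exp (-t) * ∑ i ∈ s, w i * Real.exp (g i) := by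
  rw [Finset.mul_sum]
  refine Finset.sum_le_sum fun i hi => ?_
  have h1 : Real.exp (-t) * (w i * Real.exp (g i)) = w i * Real.exp (g i - t) := by
    rw [sub_eq_add_neg, Real.exp_add]
    ring
  rw [h1]
  have h2 : 1 ≤ Real.exp (g i - t) := Real.one_le_exp (by linarith [hg i hi])
  nlinarith [hw i hi]

/-- CPU -/
theorem cpu (hC : CLBStmt) (h1 : TY1Stmt) (h2 : TY2Stmt) (hP : PURStmt) : CPUStmt := by
  obtain ⟨C₁, β₁, hC₁, h1⟩ := h1
  obtain ⟨C₂, β₂, hC₂, hC⟩ := hC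
  obtain ⟨c, θ, hc, hθ, N₁, hP⟩ := hP (C₁ + C₂ + 1) (by positivity)
  obtain ⟨β₃, h2⟩ := h2 (θ / 2) (by positivity)
  refine ⟨c, max (max β₁ β₂) (max β₃ 1), hc, fun β hβ => ?_⟩
  have hb1 : β₁ ≤ β := (le_max_left _ _).trans ((le_max_left _ _).trans hβ)
  have hb2 : β₂ ≤ β := (le_max_right _ _).trans ((le_max_left _ _).trans hβ)
  have hb3 : β₃ ≤ β := (le_max_left _ _).trans ((le_max_right _ _).trans hβ)
  have hb4 : 1 ≤ β := (le_max_right _ _).trans ((le_max_right _ _).trans hβ)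
  obtain ⟨N₂, hC⟩ := hC β hb2
  set K : ℝ := 2 / θ * (C₂ * β + 1) with hK
  have hK0 : 0 < K := by positivity
  have hev : ∀ᶠ N : ℕ in atTop, (Lg N : ℝ) ^ 2 ≤ 1 / K * N :=
    Lg_sq_small (1 / K) (by positivity)
  obtain ⟨N₃, hN₃⟩ := eventually_atTop.1 hev
  refine ⟨max (max N₁ N₂) (max N₃ 4), fun N hN m hm hne => ?_⟩
  have hN1 : N₁ ≤ N := (le_max_left _ _).trans ((le_max_left _ _).trans hN)
  have hN2 : N₂ ≤ N := (le_max_right _ _).trans ((le_max_left _ _).trans hN)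
  have hN3 : N₃ ≤ N := (le_max_left _ _).trans ((le_max_right _ _).trans hN)
  have hN4 : 4 ≤ N := (le_max_right _ _).trans ((le_max_right _ _).trans hN)
  have hNr : (4 : ℝ) ≤ N := by exact_mod_cast hN4
  have hCN := hC N hN2 m hm hne
  have h1N := h1 β hb1 N (by omega)
  have h2N := h2 β hb3 N (by omega)
  set Z : ℝ := ZZ β N (Cf N m) with hZdef
  have hZ : 0 ≤ Z := Finset.sum_nonneg fun A _ => (wt_pos β N A).le
  have hL1 : (1 : ℝ) ≤ Lg N := by
    have : 1 ≤ Lg N := by unfold Lg; omega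
    exact_mod_cast this
  have hL2 : K * (Lg N : ℝ) ≤ N := by
    have h3 := hN₃ N hN3
    have h4 : (Lg N : ℝ) ≤ 1 / K * N := by nlinarith
    calc K * (Lg N : ℝ) ≤ K * (1 / K * N) := by gcongr
      _ = N := by field_simp
  -- the first part
  set S1 := (Cf N m).filter (fun A => (C₁ + C₂ + 1) * (N : ℝ) ^ 2 < lg N A) with hS1
  set S2 := (Cf N m).filter (fun A => θ * (N : ℝ) ^ 3 < sm N A) with hS2
  have hsub : (Cf N m).filter (fun A => ¬ Pure c N A) ⊆ S1 ∪ S2 := by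
    intro A hA
    rw [Finset.mem_filter] at hA
    obtain ⟨hA, hnp⟩ := hA
    have hA' := hA
    unfold Cf at hA'
    rw [Finset.mem_filter, Finset.mem_powerset] at hA'
    rw [Finset.mem_union, hS1, hS2, Finset.mem_filter, Finset.mem_filter]
    by_contra hcon
    push Not at hcon
    refine hnp (hP N hN1 A hA'.1 ?_ (hcon.1 hA) (hcon.2 hA))
    rw [hA'.2]
    exact hm
  have hCfsub : ∀ S ⊆ Cf N m, ∀ g : Finset Site → ℝ,
      ∑ A ∈ S, wt β N A * Real.exp (g A) ≤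
        ∑ A ∈ (Vb N).powerset, wt β N A * Real.exp (g A) := by
    intro S hS g
    refine Finset.sum_le_sum_of_subset_of_nonneg (hS.trans (Finset.filter_subset _ _)) ?_
    exact fun A _ _ => mul_nonneg (wt_pos β N A).le (Real.exp_pos _).le
  have hZ1 : ZZ β N S1 ≤ Real.exp (- (N : ℝ) ^ 2) * Z := by
    have h3 : ZZ β N S1 ≤ Real.exp (- (β * ((C₁ + C₂ + 1) * (N : ℝ) ^ 2))) *
        ∑ A ∈ S1, wt β N A * Real.exp (β * lg N A) := by
      refine cpu_markov S1 _ _ _ (fun A _ => (wt_pos β N A).le) fun A hA => ?_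
      rw [hS1, Finset.mem_filter] at hA
      exact mul_le_mul_of_nonneg_left hA.2.le (by linarith)
    have h4 := hCfsub S1 (Finset.filter_subset _ _) (fun A => β * lg N A)
    calc ZZ β N S1 ≤ _ := h3
      _ ≤ Real.exp (- (β * ((C₁ + C₂ + 1) * (N : ℝ) ^ 2))) *
          (Real.exp (C₁ * β * (N : ℝ) ^ 2) * (Real.exp (C₂ * β * (N : ℝ) ^ 2) * Z)) := by
          refine mul_le_mul_of_nonneg_left (h4.trans (h1N.trans ?_)) (Real.exp_pos _).le
          exact mul_le_mul_of_nonneg_left hCN (Real.exp_pos _).le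
      _ = Real.exp (- (β * (N : ℝ) ^ 2)) * Z := by
          rw [← mul_assoc, ← mul_assoc, ← Real.exp_add, ← Real.exp_add]
          congr 2
          ring
      _ ≤ Real.exp (- (N : ℝ) ^ 2) * Z := by
          gcongr
          nlinarith
  have hZ2 : ZZ β N S2 ≤ Real.exp (- (N : ℝ) ^ 2) * Z := by
    have h3 : ZZ β N S2 ≤ Real.exp (- (θ * (N : ℝ) ^ 3 / Lg N)) *
        ∑ A ∈ S2, wt β N A * Real.exp ((sm N A : ℝ) / Lg N) := by
      refine cpu_markov S2 _ _ _ (fun A _ => (wt_pos β N A).le) fun A hA => ?_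
      rw [hS2, Finset.mem_filter] at hA
      gcongr
      exact hA.2.le
    have h4 := hCfsub S2 (Finset.filter_subset _ _) (fun A => (sm N A : ℝ) / Lg N)
    have h5 : K * (N : ℝ) ^ 2 ≤ (N : ℝ) ^ 3 / Lg N := by
      rw [le_div_iff₀ (by linarith)]
      nlinarith [sq_nonneg (N : ℝ)]
    have h6 : θ / 2 * (K * (N : ℝ) ^ 2) = (C₂ * β + 1) * (N : ℝ) ^ 2 := by
      rw [hK]
      field_simp
    calc ZZ β N S2 ≤ _ := h3
      _ ≤ Real.exp (- (θ * (N : ℝ) ^ 3 / Lg N)) *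
          (Real.exp (θ / 2 * (N : ℝ) ^ 3 / Lg N) * (Real.exp (C₂ * β * (N : ℝ) ^ 2) * Z)) := by
          refine mul_le_mul_of_nonneg_left (h4.trans (h2N.trans ?_)) (Real.exp_pos _).le
          exact mul_le_mul_of_nonneg_left hCN (Real.exp_pos _).le
      _ = Real.exp (- (θ / 2 * ((N : ℝ) ^ 3 / Lg N)) + C₂ * β * (N : ℝ) ^ 2) * Z := by
          rw [← mul_assoc, ← mul_assoc, ← Real.exp_add, ← Real.exp_add]
          congr 2
          ring
      _ ≤ Real.exp (- (N : ℝ) ^ 2) * Z := by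
          gcongr
          have h7 : θ / 2 * (K * (N : ℝ) ^ 2) ≤ θ / 2 * ((N : ℝ) ^ 3 / Lg N) := by gcongr
          rw [h6] at h7
          linarith
  have hexp : Real.exp (- (N : ℝ) ^ 2) ≤ 1 / (4 * N) := by
    rw [Real.exp_neg, one_div]
    apply inv_anti₀ (by positivity)
    have := Real.add_one_le_exp ((N : ℝ) ^ 2)
    nlinarith
  have h3 : ZZ β N ((Cf N m).filter (fun A => ¬ Pure c N A)) ≤ ZZ β N S1 + ZZ β N S2 := by
    unfold ZZ
    refine (Finset.sum_le_sum_of_subset_of_nonneg hsub fun A _ _ => (wt_pos β N A).le).trans ?_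
    rw [← Finset.sum_union_inter]
    have : 0 ≤ ∑ A ∈ S1 ∩ S2, wt β N A := Finset.sum_nonneg fun A _ => (wt_pos β N A).le
    linarith
  have h4 : Real.exp (- (N : ℝ) ^ 2) * Z ≤ 1 / (4 * N) * Z :=
    mul_le_mul_of_nonneg_right hexp hZ
  have h5 : (1 : ℝ) / (2 * N) = 1 / (4 * N) + 1 / (4 * N) := by
    field_simp
    norm_num
  rw [h5, add_mul]
  linarith

end Pool.ISH
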