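import Mathlib

/-!
The three-dimensional Ising model in a box with Dobrushin boundary conditions and fixed
magnetisation, its interface, and the two sides of the interface (definitions used in the
statement of the theorem about the interface).
-/

set_option linter.unusedVariables false

namespace Pool.ISH

open MeasureTheory Filter Topology
open scoped Classical Pointwise

/-- sites of the cubic lattice; the coordinate number `2` is the vertical one -/
abbrev Site := Fin 3 → ℤ

/-- unit vectors -/
def ev (i : Fin 3) : Site := Pi.single i 1

/-- the bond `(x, i)` joins the nearest neighbours `x` and `x + ev i` -/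
abbrev Bond := Site × Fin 3

/-- one end of a bond -/
def lo (b : Bond) : Site := b.1

/-- the other end of a bond -/
def hi (b : Bond) : Site := b.1 + ev b.2

/-- the cube of sites with centre `x` and half side `r` -/
noncomputable def Qb (x : Site) (r : ℕ) : Finset Site := Finset.Icc (fun i => x i - r) (fun i => x i + r)

/-- the box `[-N, N]^3` -/
noncomputable def Vb (N : ℕ) : Finset Site := Qb 0 N

/-- the spin at `x` of the configuration whose plus sites in the box are the members of `A`, with
Dobrushin boundary conditions: outside of the box the spin is `1` at sites with non-positive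
third coordinate and `-1` at sites with positive third coordinate -/
noncomputable def spin (N : ℕ) (A : Finset Site) (x : Site) : ℤ :=
  if x ∈ Vb N then (if x ∈ A then 1 else -1) else (if x 2 ≤ 0 then 1 else -1)

/-- the bonds with at least one end in the box -/
noncomputable def BV (N : ℕ) : Finset Bond :=
  ((Qb 0 (N + 1)) ×ˢ (Finset.univ : Finset (Fin 3))).filter (fun b => lo b ∈ Vb N ∨ hi b ∈ Vb N)

/-- the energy of a configuration (coupling `1`, no external field) -/
noncomputable def energy (N : ℕ) (A : Finset Site) : ℤ :=
  - ∑ b ∈ BV N, spin N A (lo b) * spin N A (hi b)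

/-- the magnetisation of a configuration in the box -/
noncomputable def magn (N : ℕ) (A : Finset Site) : ℤ := ∑ x ∈ Vb N, spin N A x

/-- the sum of the Gibbs weights at inverse temperature `β` of the configurations with
magnetisation `m` and the property `S` -/
noncomputable def gsum (β : ℝ) (N : ℕ) (m : ℤ) (S : Finset Site → Prop) : ℝ :=
  ∑ A ∈ (Vb N).powerset.filter (fun A => magn N A = m ∧ S A),
    Real.exp (- (β * (energy N A : ℝ)))

/-- the probability of the property `S` for the Gibbs measure at inverse temperature `β`,
conditioned on the magnetisation being `m` -/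
noncomputable def prob (β : ℝ) (N : ℕ) (m : ℤ) (S : Finset Site → Prop) : ℝ :=
  gsum β N m S / gsum β N m (fun _ => True)

/-- `m` is an attainable value of the magnetisation which is nearest to `t` -/
def IsNearest (N : ℕ) (t : ℝ) (m : ℤ) : Prop := (∃ A ⊆ Vb N, magn N A = m) ∧
  ∀ A ⊆ Vb N, |(m : ℝ) - t| ≤ |(magn N A : ℝ) - t|

/-! ### the interface -/

/-- three-dimensional Euclidean space -/
abbrev E3 := EuclideanSpace ℝ (Fin 3)

/-- the closed unit plaquette dual to the bond `b`: the common face of the unit cubes whose
centres are the two ends of `b` -/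
def plaq (b : Bond) : Set E3 :=
  {y | y b.2 = (b.1 b.2 : ℝ) + 1 / 2 ∧ ∀ j, j ≠ b.2 → |y j - (b.1 j : ℝ)| ≤ 1 / 2}

/-- the sites of the box and the sites adjacent to it (where the boundary spins are) -/
noncomputable def Vbar (N : ℕ) : Set Site := {x | x ∈ Vb N ∨ ∃ i, x + ev i ∈ Vb N ∨ x - ev i ∈ Vb N}

/-- the union of the plaquettes dual to the bonds whose ends carry opposite spins -/
def contours (N : ℕ) (A : Finset Site) : Set E3 :=
  {y | ∃ b : Bond, lo b ∈ Vbar N ∧ hi b ∈ Vbar N ∧ spin N A (lo b) ≠ spin N A (hi b) ∧
    y ∈ plaq b}

/-- the centre of a plaquette forced by the change of the boundary condition: the one dual to the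
bond between the boundary sites `(N + 1, 0, 0)` and `(N + 1, 0, 1)` -/
noncomputable def p0 (N : ℕ) : E3 := !₂[(N : ℝ) + 1, 0, 1 / 2]

/-- the interface: the connected component of the set of contours which contains the plaquettes
forced by the change of the boundary condition -/
def Gamma (N : ℕ) (A : Finset Site) : Set E3 := connectedComponentIn (contours N A) (p0 N)

/-- the set of sites below the interface: in the box these are the sites `x` for which the vertical
half line from `x` downwards crosses an even number of plaquettes of the interface; outside of the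
box, the sites with non-positive third coordinate -/
def below (N : ℕ) (A : Finset Site) : Set Site :=
  {x | (x ∈ Vb N ∧ Even (Set.ncard {b : Bond | plaq b ⊆ Gamma N A ∧ b.2 = 2 ∧ b.1 0 = x 0 ∧
    b.1 1 = x 1 ∧ b.1 2 < x 2})) ∨ (x ∉ Vb N ∧ x 2 ≤ 0)}

/-- the number of sites of the cube `Qb x r` in `D` -/
noncomputable def cnt (D : Set Site) (x : Site) (r : ℕ) : ℕ :=
  ((Qb x r).filter (fun y => y ∈ D)).card

/-- Density property: for all plaquettes of the interface and all `R ≥ R₀`, each of the two sides
of the interface contains at least `δ R ^ 3` sites of the cube of half side `R` around the ends of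
the bond dual to the plaquette -/
def Dense (δ : ℝ) (R₀ N : ℕ) (A : Finset Site) : Prop := ∀ b : Bond, plaq b ⊆ Gamma N A →
  ∀ x : Site, (x = lo b ∨ x = hi b) → ∀ R : ℕ, R₀ ≤ R →
    δ * (R : ℝ) ^ 3 ≤ (cnt (below N A) x R : ℝ) ∧ δ * (R : ℝ) ^ 3 ≤ (cnt (below N A)ᶜ x R : ℝ)

/-! ### limits -/

/-- the cube `[-1, 1]^3` -/
def Qc : Set E3 := {y | ∀ i, |y i| ≤ 1}

/-- the region of `[-1, 1]^3` below the rescaled interface -/
def region (N : ℕ) (A : Finset Site) : Set E3 :=
  {y | y ∈ Qc ∧ (fun i => round ((N : ℝ) * y i)) ∈ below N A}

/-- the volume between the rescaled interface and the boundary of the region `K` -/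
noncomputable def vdist (N : ℕ) (A : Finset Site) (K : Set E3) : ENNReal :=
  volume {y | y ∈ Qc ∧ ¬ (y ∈ region N A ↔ y ∈ K)}

/-- the set `K` in `[-1, 1]^3`, extended by the lower half space outside of `[-1, 1]^3` -/
def extend (K : Set E3) : Set E3 := {y | (y ∈ Qc ∧ y ∈ K) ∨ (y ∉ Qc ∧ y 2 ≤ 0)}

/-- the boundary surface of the region `K` of `[-1, 1]^3`: the set of all points of `[-1, 1]^3`
all neighbourhoods of which meet both `K`, extended by the boundary condition, and its complement
in a set of positive volume -/
def surface (K : Set E3) : Set E3 := {y | y ∈ Qc ∧ ∀ r : ℝ, 0 < r →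
  0 < volume (Metric.ball y r ∩ extend K) ∧ 0 < volume (Metric.ball y r \ extend K)}

end Pool.ISH
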