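import Pool.Agent.H40.ISH.Core

/-!
The zero temperature shape of the interface.
-/

set_option linter.unusedVariables false

namespace Pool.ISH

/-- the zero temperature shape: the horizontal square at height `b / 8` together with the parts
of the lateral faces of the cube `[-1, 1]^3` between the heights `0` and `b / 8` -/
def shape (b : ℝ) : Set E3 :=
  {y | y ∈ Qc ∧ (y 2 = b / 8 ∨ (0 ≤ y 2 ∧ y 2 ≤ b / 8 ∧ (|y 0| = 1 ∨ |y 1| = 1)))}

end Pool.ISH
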