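import Pool.Agent.H40.ISH.Core

/-!
Project ISH: internal definitions.
-/

set_option linter.unusedVariables false

namespace Pool.ISH

open MeasureTheory Filter Topology
open scoped Classical Pointwise

/-! ### sites, bonds, touching -/

/-- the bonds with both ends in the cube `Qb x r` -/
noncomputable def BQ (x : Site) (r : ℕ) : Finset Bond :=
  ((Qb x r) ×ˢ (Finset.univ : Finset (Fin 3))).filter (fun b => hi b ∈ Qb x r)

/-- boundary bonds of a set of sites: bonds with exactly one end in the set -/
def bd (P : Set Site) : Set Bond := {b | ¬ (lo b ∈ P ↔ hi b ∈ P)}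

/-- sup distance at most one -/
def Nr1 (x y : Site) : Prop := ∀ i, |x i - y i| ≤ 1

/-- the plaquettes dual to `b` and `c` intersect -/
def Tch (b c : Bond) : Prop :=
  Nr1 (lo b) (lo c) ∧ Nr1 (lo b) (hi c) ∧ Nr1 (hi b) (lo c) ∧ Nr1 (hi b) (hi c)

/-- `c` can be reached from `b` by a sequence of touching bonds in `S` -/
def Rch (S : Set Bond) : Bond → Bond → Prop := Relation.ReflTransGen (fun b c => Tch b c ∧ c ∈ S)

/-! ### configurations -/

/-- the set of all plus sites of the configuration `A` -/
def Pl (N : ℕ) (A : Finset Site) : Set Site := {x | (x ∈ Vb N ∧ x ∈ A) ∨ (x ∉ Vb N ∧ x 2 ≤ 0)}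

/-- the number of broken bonds -/
noncomputable def en (N : ℕ) (A : Finset Site) : ℕ :=
  ((BV N).filter (fun b => b ∈ bd (Pl N A))).card

/-- the weight -/
noncomputable def wt (β : ℝ) (N : ℕ) (A : Finset Site) : ℝ := Real.exp (- (2 * β * (en N A : ℝ)))

/-- the magnetisation -/
noncomputable def mg (N : ℕ) (A : Finset Site) : ℤ := 2 * (A.card : ℤ) - ((Vb N).card : ℤ)

/-- configurations with magnetisation `m` -/
noncomputable def Cf (N : ℕ) (m : ℤ) : Finset (Finset Site) :=
  (Vb N).powerset.filter (fun A => mg N A = m)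

/-- sums of weights -/
noncomputable def ZZ (β : ℝ) (N : ℕ) (S : Finset (Finset Site)) : ℝ := ∑ A ∈ S, wt β N A

/-- logarithm to the base two, plus one -/
def Lg (N : ℕ) : ℕ := Nat.log 2 N + 1

/-! ### the interface -/

/-- a bond outside of the box which is broken because of the boundary conditions -/
def rt (N : ℕ) : Bond := (![(N : ℤ) + 1, 0, 0], 2)

/-- the interface (in the whole lattice; it contains all vertical bonds between heights `0` and
`1` outside of the box) -/
def Gam (N : ℕ) (A : Finset Site) : Set Bond := {b | Rch (bd (Pl N A)) (rt N) b}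

/-- the set of sites with an even number of vertical bonds in `S` below them -/
def Bel (S : Set Bond) : Set Site :=
  {x | Even (Set.ncard {b : Bond | b ∈ S ∧ b.2 = 2 ∧ b.1 0 = x 0 ∧ b.1 1 = x 1 ∧ b.1 2 < x 2})}

/-- the set of sites below the interface -/
def Dp (N : ℕ) (A : Finset Site) : Set Site := Bel (Gam N A)

/-- the two sides of the interface -/
def Sd (N : ℕ) (A : Finset Site) (s : Bool) : Set Site := if s then Dp N A else (Dp N A)ᶜ

/-- the boundary of `D` is connected and unbounded -/
structure Cnn (D : Set Site) : Prop where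
  conn : ∀ b ∈ bd D, ∀ c ∈ bd D, Rch (bd D) b c
  unb : ∀ r : ℕ, ∃ b ∈ bd D, lo b ∉ Qb 0 r

/-- `x` is in `D` and is an end of a boundary bond of `D` -/
def Inc (D : Set Site) (x : Site) : Prop := x ∈ D ∧ ∃ b ∈ bd D, lo b = x ∨ hi b = x

/-- the number of boundary bonds of `D` inside of the cube -/
noncomputable def sf (D : Set Site) (x : Site) (r : ℕ) : ℕ :=
  ((BQ x r).filter (fun b => b ∈ bd D)).card

/-- the number of bonds between the part of `D` in the cube and the outside of the cube -/
noncomputable def cut (D : Set Site) (x : Site) (r : ℕ) : ℕ :=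
  ((BQ x (r + 1)).filter (fun b => (lo b ∈ Qb x r ∧ lo b ∈ D ∧ hi b ∉ Qb x r) ∨
    (hi b ∈ Qb x r ∧ hi b ∈ D ∧ lo b ∉ Qb x r))).card

/-- one of the sides of the interface is thin near some site -/
def Thin (δ : ℝ) (R₀ N : ℕ) (A : Finset Site) : Prop := ∃ (s : Bool) (x : Site) (R : ℕ), R₀ ≤ R ∧
  Inc (Sd N A s) x ∧ (∀ y ∈ Qb x R, y ∈ Sd N A s → y ∈ Vb N) ∧
  (cnt (Sd N A s) x R : ℝ) ≤ δ * (R : ℝ) ^ 3

/-! ### pieces -/

/-- all boundary bonds of `D` in the cube can be reached, inside of the cube, from boundary bonds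
of `D` in the outermost layer of the cube -/
def Rtd (D : Set Site) (x : Site) (r : ℕ) : Prop := ∀ b ∈ BQ x r, b ∈ bd D →
  ∃ c ∈ BQ x r, c ∉ BQ x (r - 1) ∧ c ∈ bd D ∧ Rch {a | a ∈ BQ x r ∧ a ∈ bd D} c b

/-- the possible pieces with `s` boundary bonds in the cube -/
noncomputable def Pc (x : Site) (r s : ℕ) : Finset (Finset Site) :=
  (Qb x r).powerset.filter (fun D => Rtd (D : Set Site) x r ∧ sf (D : Set Site) x r = s ∧
    (sf (D : Set Site) x r - sf (D : Set Site) x (r - 1)) * Lg r ≤ s)

/-! ### cubes and their initial segments -/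

/-- the cube with corner `z` and side `a` -/
noncomputable def cube (z : Site) (a : ℕ) : Finset Site := Finset.Icc z (fun i => z i + a - 1)

/-- the first `k` sites of the cube, in the lexicographic order -/
noncomputable def seg (z : Site) (a k : ℕ) : Finset Site :=
  (cube z a).filter (fun x => (x 0 - z 0) * (a : ℤ) ^ 2 + (x 1 - z 1) * a + (x 2 - z 2) < k)

/-- bonds with both ends in the cube -/
noncomputable def BC (z : Site) (a : ℕ) : Finset Bond :=
  ((cube z a) ×ˢ (Finset.univ : Finset (Fin 3))).filter (fun b => hi b ∈ cube z a)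

/-- for both spins there is a cube of side at least `c N` in which at least three quarters of the
sites have this spin -/
def Pure (c : ℝ) (N : ℕ) (A : Finset Site) : Prop := ∀ s : Bool, ∃ (z : Site) (l : ℕ),
  c * (N : ℝ) ≤ l ∧ cube z l ⊆ Vb N ∧
  3 * l ^ 3 ≤ 4 * ((cube z l).filter (fun x => (x ∈ A ↔ s = true))).card

/-- corners of the disjoint cubes of side `l` which tile the box (up to a layer) -/
noncomputable def tiles (N l : ℕ) : Finset Site :=
  (Vb N).filter (fun z => cube z l ⊆ Vb N ∧ ∀ i, (l : ℤ) ∣ z i)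

/-! ### contours -/

/-- the finite contours -/
noncomputable def Ks (N : ℕ) (A : Finset Site) : Finset (Finset Bond) :=
  (BV N).powerset.filter (fun γ => ∃ b ∈ bd (Pl N A), b ∉ Gam N A ∧
    (γ : Set Bond) = {c | Rch (bd (Pl N A)) b c})

/-- the set of sites with an odd number of bonds in `S` below them -/
def Odb (S : Set Bond) : Set Site := (Bel S)ᶜ

/-- the size of the interface and the large contours -/
noncomputable def lg (N : ℕ) (A : Finset Site) : ℕ :=
  ((BV N).filter (fun b => b ∈ Gam N A)).card +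
    ∑ γ ∈ (Ks N A).filter (fun γ => Lg N ≤ γ.card), γ.card

/-- the size of the small contours -/
noncomputable def sm (N : ℕ) (A : Finset Site) : ℕ :=
  ∑ γ ∈ (Ks N A).filter (fun γ => γ.card < Lg N), γ.card ^ 2

end Pool.ISH
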