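import Pool.Agent.H40.ISH.All
import Pool.Agent.H40.ISH.CMP

/-!
Project ISH: the two theorems.
-/

namespace Pool.ISH

theorem t_cmp : CMPStmt := cmp t_ivt
theorem t_t1 : T1Stmt := t_t1' t_cmp
theorem t_t2 : T2Stmt := t_t2' t_cmp

end Pool.ISH
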