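import Pool.Agent.H40.ISH.Basic

/-!
Project ISH: statements of the modules. (Lattice bases are in `Basic`.)
-/

set_option linter.unusedVariables false

namespace Pool.ISH

open MeasureTheory Filter Topology
open scoped Classical Pointwise

/-! ## Part A: the interface and the contours -/

/-- `S` has an even number of bonds in every elementary square -/
def SqEven (S : Set Bond) : Prop := ∀ (x : Site) (i j : Fin 3), i ≠ j →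
  ((((x, i) : Bond) ∈ S ↔ ((x + ev j, i) : Bond) ∈ S) ↔
    (((x, j) : Bond) ∈ S ↔ ((x + ev i, j) : Bond) ∈ S))

/-- SQE: unions of components of boundaries have an even number of bonds in every square -/
def SQEStmt : Prop := ∀ (P : Set Site) (S : Set Bond), S ⊆ bd P →
  (∀ b ∈ S, ∀ c ∈ bd P, Tch b c → c ∈ S) → SqEven S

/-- BEL: such a set is the boundary of the set of sites with an even number of bonds below -/
def BELStmt : Prop := ∀ S : Set Bond, SqEven S →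
  (∀ x : Site, {b : Bond | b ∈ S ∧ b.2 = 2 ∧ b.1 0 = x 0 ∧ b.1 1 = x 1 ∧ b.1 2 < x 2}.Finite) →
  (∀ x : Site, ∃ k : ℤ, ∀ b ∈ S, b.2 ≠ 2 → b.1 0 = x 0 → b.1 1 = x 1 → k ≤ b.1 2) →
  bd (Bel S) = S

/-- GAM: the interface is the boundary of the set of sites below it; it is connected and
unbounded -/
def GAMStmt : Prop := ∀ (N : ℕ) (A : Finset Site), Gam N A ⊆ bd (Pl N A) ∧
  bd (Dp N A) = Gam N A ∧ (∀ x, x ∉ Vb N → (x ∈ Dp N A ↔ x 2 ≤ 0)) ∧ Cnn (Dp N A)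

/-- INT: the interior of a finite contour -/
def INTStmt : Prop := ∀ (N : ℕ) (γ : Finset Bond), γ ⊆ BV N → SqEven (γ : Set Bond) →
  (∀ b ∈ γ, ∀ c ∈ γ, Rch (γ : Set Bond) b c) →
  ∃ F : Finset Site, F ⊆ Vb N ∧ bd (F : Set Site) = (γ : Set Bond) ∧ F.card ≤ γ.card ^ 2

/-- KOM: the finite contours -/
def KOMStmt : Prop := ∀ (N : ℕ) (A : Finset Site),
  (∀ γ ∈ Ks N A, γ ⊆ BV N ∧ γ.Nonempty ∧ (γ : Set Bond) ⊆ bd (Pl N A) ∧
    (∀ b ∈ γ, b ∉ Gam N A) ∧ (∀ b ∈ γ, ∀ c ∈ bd (Pl N A), Tch b c → c ∈ γ) ∧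
    (∀ b ∈ γ, ∀ c ∈ γ, Rch (γ : Set Bond) b c)) ∧
  (∀ γ ∈ Ks N A, ∀ γ' ∈ Ks N A, γ ≠ γ' → Disjoint γ γ') ∧
  ∀ b ∈ bd (Pl N A), b ∉ Gam N A → ∃ γ ∈ Ks N A, b ∈ γ

/-! ## Part B: counting -/

/-- CNT: sets of bonds in which every bond can be reached from the set `T` of roots -/
def CNTStmt : Prop := ∀ (U T : Finset Bond) (s : ℕ),
  ((U.powerset).filter (fun G : Finset Bond => T ⊆ G ∧ G.card = s ∧
    ∀ b ∈ G, ∃ c ∈ T, Rch (G : Set Bond) c b)).card ≤ 2 ^ (81 * s)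

/-- ROT: choice of roots -/
def ROTStmt : Prop := ∀ (G R : Finset Bond) (l : ℕ), 1 ≤ l →
  (∀ b ∈ G, (∃ c ∈ G, c ∈ R ∧ Rch (G : Set Bond) c b) ∨
    l ≤ (G.filter (fun c => Rch (G : Set Bond) b c)).card) →
  ∃ T ⊆ G, (T \ R).card * l ≤ G.card ∧ ∀ b ∈ G, ∃ c ∈ T, Rch (G : Set Bond) c b

/-- the bonds with an end in the box which touch a broken bond outside of the box -/
noncomputable def NR (N : ℕ) : Finset Bond := (BV N).filter (fun b => ∃ c : Bond, c ∉ BV N ∧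
  c.2 = 2 ∧ c.1 2 = 0 ∧ Tch c b)

/-- CLA: the number of sets of bonds all components of which are large or begin near the
boundary circuit -/
def CLAStmt : Prop := ∃ C : ℕ, ∀ N s : ℕ, 1 ≤ N →
  (((BV N).powerset).filter (fun G : Finset Bond => G.card = s ∧
    ∀ b ∈ G, (∃ c ∈ G, c ∈ NR N ∧ Rch (G : Set Bond) c b) ∨
      Lg N ≤ (G.filter (fun c => Rch (G : Set Bond) b c)).card)).card ≤ 2 ^ (C * (N + s))

/-- DET: a set of sites in a cube is determined, up to complements, by its boundary bonds inside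
of the cube -/
def DETStmt : Prop := ∀ (x : Site) (r : ℕ) (D D' : Finset Site), D ⊆ Qb x r → D' ⊆ Qb x r →
  (∀ b ∈ BQ x r, (b ∈ bd (D : Set Site) ↔ b ∈ bd (D' : Set Site))) →
  D' = D ∨ D' = Qb x r \ D

/-- ENT: the number of pieces -/
def ENTStmt : Prop := ∀ (x : Site) (r s : ℕ), 2 ≤ r → (Pc x r s).card ≤ 2 ^ (100 * s + 1)

/-! ## Part C: geometry -/

/-- LWH: the Loomis-Whitney inequality -/
def LWHStmt : Prop := ∀ D : Finset Site,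
  D.card ^ 2 ≤ ∏ i : Fin 3, (D.image (fun x => Function.update x i 0)).card

/-- ISO: the isoperimetric inequality in a cube -/
def ISOStmt : Prop := ∀ (D : Set Site) (x : Site) (r : ℕ) (a : ℝ), 0 ≤ a → a ^ 3 ≤ cnt D x r →
  3 * a ^ 2 ≤ sf D x r + 3 * (cnt D x r : ℝ) / (2 * r + 1)

/-- RDA: there are few radii for which the cut is not small -/
def RDAStmt : Prop := ∀ (D : Set Site) (x : Site) (ρ : ℕ), 10 ^ 9 * cnt D x ρ ≤ ρ ^ 3 →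
  16 * ((Finset.Icc 1 ρ).filter (fun r => ρ ≤ 2 * r ∧ sf D x r < 8 * cut D x r)).card ≤ ρ

/-- RDB: there are few radii for which the outermost layer contains many boundary bonds -/
def RDBStmt : Prop := ∃ ρ₀ : ℕ, ∀ ρ ≥ ρ₀, ∀ (D : Set Site) (x : Site), 1 ≤ sf D x (ρ / 2) →
  16 * ((Finset.Icc 1 ρ).filter (fun r => ρ ≤ 2 * r ∧
    sf D x r < (sf D x r - sf D x (r - 1)) * Lg r)).card ≤ ρ

/-- LEN: a connected boundary has bonds at all distances -/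
def LENStmt : Prop := ∀ D : Set Site, Cnn D → ∀ x, Inc D x → ∀ r : ℕ, r ≤ sf D x r

/-- INR: there are boundary sites at all distances -/
def INRStmt : Prop := ∀ D : Set Site, Cnn D → ∀ x, Inc D x → ∀ k : ℕ, ∃ y, Inc D y ∧
  (∀ i, |y i - x i| ≤ (k : ℤ) + 1) ∧ ∃ i, (k : ℤ) ≤ |y i - x i|

/-- RAD: good radii -/
def RADStmt : Prop := ∃ ρ₀ : ℕ, ∀ D : Set Site, Cnn D → ∀ x, Inc D x → ∀ ρ ≥ ρ₀,
  10 ^ 9 * cnt D x ρ ≤ ρ ^ 3 → ∃ r, 2 ≤ r ∧ ρ ≤ 2 * r ∧ r ≤ ρ ∧ 8 * cut D x r ≤ sf D x r ∧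
    (sf D x r - sf D x (r - 1)) * Lg r ≤ sf D x r ∧ r ≤ sf D x r

/-- SVL: the boundary in a cube in which the density is neither too small nor too large -/
def SVLStmt : Prop := ∀ (D : Set Site) (x : Site) (ρ r : ℕ), 2 ∣ ρ → ρ ≤ 2 * r → r ≤ ρ →
  10 ^ 9 * cnt D x ρ ≤ ρ ^ 3 → ρ ^ 3 < 8 * 10 ^ 9 * cnt D x (ρ / 2) →
  ρ ^ 2 ≤ 2 * 10 ^ 6 * sf D x r

/-- RTG: pieces of a set with connected and unbounded boundary are rooted -/
def RTGStmt : Prop := ∀ D : Set Site, Cnn D → ∀ (x : Site) (r : ℕ),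
  Rtd (((Qb x r).filter (fun y => y ∈ D) : Finset Site) : Set Site) x r

/-- SEL: greedy selection of disjoint cubes -/
def SELStmt : Prop := ∀ (Y : Finset Site) (ρ : Site → ℕ), ∃ X ⊆ Y,
  (∀ x ∈ X, ∀ x' ∈ X, x ≠ x' → Disjoint (Qb x (ρ x)) (Qb x' (ρ x'))) ∧
  ∀ y ∈ Y, ∃ x ∈ X, ρ y ≤ ρ x ∧ ∀ i, |y i - x i| ≤ 2 * (ρ x : ℤ)

/-- GEO: near a site where one side of a connected boundary is thin there are many disjoint cubes
of the same size centred at boundary sites in which this side is thin -/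
def GEOStmt : Prop := ∀ c : ℝ, 0 < c → ∃ δ : ℝ, 0 < δ ∧ ∃ q₀ : ℕ, ∀ D : Set Site, Cnn D →
  ∀ x₀, Inc D x₀ → ∀ k R : ℕ, q₀ ≤ 2 ^ k → 100 * (2 ^ k) ^ 4 ≤ R →
  (cnt D x₀ R : ℝ) ≤ δ * (R : ℝ) ^ 3 →
  ∃ (m j : ℕ) (X : Finset Site), X.card = m ^ 3 ∧ ((2 ^ j : ℕ) : ℝ) ≤ c * R ∧
    (∀ x ∈ X, Inc D x ∧ Qb x (2 ^ j) ⊆ Qb x₀ R ∧
      10 ^ 9 * cnt D x (2 ^ j) ≤ (2 ^ j) ^ 3) ∧
    (∀ x ∈ X, ∀ y ∈ X, x ≠ y → Disjoint (Qb x (2 ^ j)) (Qb y (2 ^ j))) ∧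
    ((m = 2 ^ k ∧ j = k) ∨ (m = 1152 ∧ k < j ∧
      ∀ x ∈ X, (2 ^ j) ^ 3 < 8 * 10 ^ 9 * cnt D x (2 ^ j / 2)))

/-! ## Part D: fixed magnetisation, pure cubes -/

/-- SEG: initial segments of cubes -/
def SEGStmt : Prop := ∀ (z : Site) (a : ℕ), (∀ k, (bd (seg z a k : Set Site)).ncard ≤ 6 * a ^ 2) ∧
  seg z a 0 = ∅ ∧ seg z a (a ^ 3) = cube z a ∧
  ∀ k, ∃ S : Finset Site, S.card ≤ 1 ∧ Disjoint (seg z a k) S ∧ seg z a (k + 1) = seg z a k ∪ S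

/-- IVT: flipping initial segments of a cube attains all intermediate numbers of plus sites -/
def IVTStmt : Prop := ∀ (z : Site) (a : ℕ) (A : Finset Site) (n : ℕ),
  (A.card ≤ n ∧ n ≤ (symmDiff A (cube z a)).card ∨
    (symmDiff A (cube z a)).card ≤ n ∧ n ≤ A.card) →
  ∃ k ≤ a ^ 3, (symmDiff A (seg z a k)).card = n

/-- CMP: restoring the number of plus sites by flipping an initial segment of a small cube -/
def CMPStmt : Prop := ∀ c : ℝ, 0 < c → ∃ c' : ℝ, 0 < c' ∧ ∀ (N : ℕ) (A F : Finset Site) (a : ℕ),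
  1 ≤ N → A ⊆ Vb N → F ⊆ Vb N → Pure c N A → 8 * F.card ≤ a ^ 3 → (a : ℝ) ≤ c' * N →
  ∃ z ∈ Vb N, ∃ k ≤ a ^ 3, seg z a k ⊆ Vb N ∧
    (symmDiff (symmDiff A F) (seg z a k)).card = A.card

/-- BPI: the boundary of a set in a cube -/
def BPIStmt : Prop := ∀ (P : Set Site) (z : Site) (l : ℕ),
  2 * ((cube z l).filter (fun x => x ∈ P)).card * ((cube z l).filter (fun x => x ∉ P)).card ≤
    l ^ 4 * ((BC z l).filter (fun b => b ∈ bd P)).card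

/-- TIL: the tiling of the box -/
def TILStmt : Prop := ∀ N l : ℕ, 1 ≤ l →
  (∀ z ∈ tiles N l, ∀ z' ∈ tiles N l, z ≠ z' → Disjoint (cube z l) (cube z' l)) ∧
  (tiles N l).card * l ^ 3 ≤ (2 * N + 1) ^ 3 ∧
  (2 * N + 1) ^ 3 ≤ (tiles N l).card * l ^ 3 + 6 * l * (2 * N + 1) ^ 2

/-- the interface and the large contours -/
noncomputable def Lam (N : ℕ) (A : Finset Site) : Finset Bond :=
  (BV N).filter (fun b => b ∈ Gam N A) ∪
    ((Ks N A).filter (fun γ => Lg N ≤ γ.card)).biUnion id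

/-- LAM: elementary properties of `Lam` -/
def LAMStmt : Prop := ∀ (N : ℕ) (A : Finset Site), 1 ≤ N → Lam N A ⊆ BV N ∧
  (Lam N A).card = lg N A ∧ ∀ b ∈ Lam N A,
    (∃ c ∈ Lam N A, c ∈ NR N ∧ Rch (Lam N A : Set Bond) c b) ∨
      Lg N ≤ ((Lam N A).filter (fun c => Rch (Lam N A : Set Bond) b c)).card

/-- FLT: flattening the interface and removing the large contours -/
def FLTStmt : Prop := ∀ N : ℕ, ∃ Φ : Finset Bond → Finset Site, ∀ A ⊆ Vb N,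
  Φ (Lam N A) ⊆ Vb N ∧ en N (symmDiff A (Φ (Lam N A))) + lg N A ≤ en N A + (2 * N + 1) ^ 2

/-- TY1: the exponential moment of the size of the large contours -/
def TY1Stmt : Prop := ∃ C β₁ : ℝ, 0 < C ∧ ∀ β ≥ β₁, ∀ N : ℕ, 1 ≤ N →
  ∑ A ∈ (Vb N).powerset, wt β N A * Real.exp (β * lg N A) ≤
    Real.exp (C * β * (N : ℝ) ^ 2) * ZZ β N (Vb N).powerset

/-- SMC: removing small contours: the generating function -/
def SMCStmt : Prop := ∀ (β : ℝ) (N : ℕ) (a : ℕ → ℝ), (∀ n, 0 ≤ a n) →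
  ∑ A ∈ (Vb N).powerset, wt β N A *
      ∏ γ ∈ (Ks N A).filter (fun γ => γ.card < Lg N), (1 + a γ.card) ≤
    ZZ β N (Vb N).powerset *
      Real.exp (∑ γ ∈ ((BV N).powerset).filter (fun γ : Finset Bond => γ.Nonempty ∧ γ.card < Lg N ∧
        ∀ b ∈ γ, ∀ c ∈ γ, Rch (γ : Set Bond) b c),
          a γ.card * Real.exp (- (2 * β * γ.card)))

/-- TY2: the exponential moment of the size of the small contours -/
def TY2Stmt : Prop := ∀ θ : ℝ, 0 < θ → ∃ β₂ : ℝ, ∀ β ≥ β₂, ∀ N : ℕ, 1 ≤ N →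
  ∑ A ∈ (Vb N).powerset, wt β N A * Real.exp ((sm N A : ℝ) / Lg N) ≤
    Real.exp (θ * (N : ℝ) ^ 3 / Lg N) * ZZ β N (Vb N).powerset

/-- ETA: removing the small contours from a configuration -/
def ETAStmt : Prop := ∀ (N : ℕ) (A : Finset Site), A ⊆ Vb N → ∃ A' ⊆ Vb N,
  (symmDiff A A').card ≤ sm N A ∧ en N A' = lg N A

/-- MAG: a bounded number of flips makes one of the magnetisations large -/
def MAGStmt : Prop := ∀ C : ℝ, 0 < C → ∃ C' θ : ℝ, 0 < C' ∧ 0 < θ ∧ ∃ N₀ : ℕ, ∀ N ≥ N₀,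
  ∃ 𝓑 : Finset (Finset Site), (𝓑.card : ℝ) ≤ C' ∧
    (∀ F ∈ 𝓑, F ⊆ Vb N ∧ ((bd (F : Set Site)).ncard : ℝ) ≤ C' * (N : ℝ) ^ 2) ∧
    ∀ A ⊆ Vb N, (lg N A : ℝ) ≤ C * (N : ℝ) ^ 2 → (sm N A : ℝ) ≤ θ * (N : ℝ) ^ 3 →
      ∃ F ∈ 𝓑, 2 * (N : ℤ) ^ 3 ≤ mg N (symmDiff A F)

/-- PUR: pure cubes of both signs -/
def PURStmt : Prop := ∀ C : ℝ, 0 < C → ∃ c θ : ℝ, 0 < c ∧ 0 < θ ∧ ∃ N₀ : ℕ, ∀ N ≥ N₀,
  ∀ A ⊆ Vb N, |mg N A| ≤ 2 * (N : ℤ) ^ 3 → (lg N A : ℝ) ≤ C * (N : ℝ) ^ 2 →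
    (sm N A : ℝ) ≤ θ * (N : ℝ) ^ 3 → Pure c N A

/-- CLB: the lower bound for the canonical partition function -/
def CLBStmt : Prop := ∃ C β₁ : ℝ, 0 < C ∧ ∀ β ≥ β₁, ∃ N₀ : ℕ, ∀ N ≥ N₀, ∀ m : ℤ,
  |m| ≤ 2 * (N : ℤ) ^ 3 → (Cf N m).Nonempty →
  ZZ β N (Vb N).powerset ≤ Real.exp (C * β * (N : ℝ) ^ 2) * ZZ β N (Cf N m)

/-- CPU: in the canonical ensemble there are pure cubes of both signs -/
def CPUStmt : Prop := ∃ c β₁ : ℝ, 0 < c ∧ ∀ β ≥ β₁, ∃ N₀ : ℕ, ∀ N ≥ N₀, ∀ m : ℤ,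
  |m| ≤ 2 * (N : ℤ) ^ 3 → (Cf N m).Nonempty →
  ZZ β N ((Cf N m).filter (fun A => ¬ Pure c N A)) ≤ 1 / (2 * N) * ZZ β N (Cf N m)

/-! ## Part E: the density theorem -/

/-- REM: removing the pieces of one side of the interface in disjoint cubes -/
def REMStmt : Prop := ∀ (N : ℕ) (A : Finset Site) (s : Bool) (X : Finset Site) (r : Site → ℕ),
  A ⊆ Vb N → (∀ x ∈ X, ∀ y ∈ X, x ≠ y → Disjoint (Qb x (r x)) (Qb y (r y))) →
  (∀ x ∈ X, ∀ y ∈ Qb x (r x), y ∈ Sd N A s → y ∈ Vb N) →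
  X.biUnion (fun x => (Qb x (r x)).filter (fun y => y ∈ Sd N A s)) ⊆ Vb N ∧
  en N (symmDiff A (X.biUnion (fun x => (Qb x (r x)).filter (fun y => y ∈ Sd N A s)))) +
      ∑ x ∈ X, sf (Sd N A s) x (r x) ≤ en N A + ∑ x ∈ X, cut (Sd N A s) x (r x)

/-- the pieces in the cubes with half side at most `2 ^ j` and at least `2 ^ j / 2` boundary
bonds -/
noncomputable def pcs (N j : ℕ) : Finset (Site × ℕ × Finset Site) :=
  (Vb N ×ˢ (Finset.range (2 ^ j + 1))).biUnion (fun p =>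
    ((Qb p.1 p.2).powerset.filter (fun D : Finset Site => 2 ≤ p.2 ∧
      D ∈ Pc p.1 p.2 (sf (D : Set Site) p.1 p.2) ∧
      2 ^ j ≤ 2 * sf (D : Set Site) p.1 p.2)).image (fun D : Finset Site => (p.1, p.2, D)))

/-- DAT: every configuration with a thin side and pure cubes can be changed into a configuration
with the same magnetisation and much less energy -/
def DATStmt : Prop := ∀ c : ℝ, 0 < c → ∃ δ : ℝ, 0 < δ ∧ ∃ N₀ : ℕ, ∀ N ≥ N₀, ∀ A ⊆ Vb N,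
  Thin δ (Lg N ^ 5) N A → Pure c N A →
  ∃ (j : ℕ) (X : Finset (Site × ℕ × Finset Site)) (z : Site) (a k : ℕ),
    64 * Lg N ≤ 2 ^ j ∧ j ≤ Lg N + 1 ∧ X.Nonempty ∧ X ⊆ pcs N j ∧ z ∈ Vb N ∧
    a ≤ 2 * N + 1 ∧ k ≤ a ^ 3 ∧
    symmDiff (symmDiff A (X.biUnion (fun t => t.2.2))) (seg z a k) ⊆ Vb N ∧
    (symmDiff (symmDiff A (X.biUnion (fun t => t.2.2))) (seg z a k)).card = A.card ∧
    2 * en N (symmDiff (symmDiff A (X.biUnion (fun t => t.2.2))) (seg z a k)) +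
      ∑ t ∈ X, sf (t.2.2 : Set Site) t.1 t.2.1 ≤ 2 * en N A

/-- PSM: the sum of the weights of all pieces is small -/
def PSMStmt : Prop := ∀ β : ℝ, 102 ≤ β → ∃ N₀ : ℕ, ∀ N ≥ N₀, ∀ j : ℕ, 64 * Lg N ≤ 2 ^ j →
  j ≤ Lg N + 1 → ∑ t ∈ pcs N j, Real.exp (- (β * sf (t.2.2 : Set Site) t.1 t.2.1)) ≤
    1 / (N : ℝ) ^ 16

/-- DEN: thin sides are improbable -/
def DENStmt : Prop := ∃ β₀ δ : ℝ, 0 < δ ∧ ∀ β ≥ β₀, ∃ N₀ : ℕ, ∀ N ≥ N₀, ∀ m : ℤ,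
  |m| ≤ 2 * (N : ℤ) ^ 3 → (Cf N m).Nonempty →
  ZZ β N ((Cf N m).filter (fun A => Thin δ (Lg N ^ 5) N A)) ≤ 1 / (N : ℝ) * ZZ β N (Cf N m)

/-- OUT: from thin sides to the density property -/
def OUTStmt : Prop := ∀ δ : ℝ, 0 < δ → ∃ δ' : ℝ, 0 < δ' ∧ ∃ N₀ : ℕ, ∀ N ≥ N₀, ∀ A ⊆ Vb N,
  ¬ Thin δ (Lg N ^ 5) N A → ∀ b ∈ Gam N A, ∀ x, (x = lo b ∨ x = hi b) → ∀ R : ℕ,
    Lg N ^ 6 ≤ R → δ' * (R : ℝ) ^ 3 ≤ (cnt (Dp N A) x R : ℝ) ∧
      δ' * (R : ℝ) ^ 3 ≤ (cnt (Dp N A)ᶜ x R : ℝ)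

/-! ## Part G: the statement in space -/

/-- PLQ: plaquettes intersect iff the bonds touch -/
def PLQStmt : Prop := ∀ b c : Bond, (plaq b ∩ plaq c).Nonempty ↔ Tch b c

/-- PLC: plaquettes are compact and connected, and a plaquette which is covered by finitely many
plaquettes is one of them -/
def PLCStmt : Prop := (∀ b : Bond, IsCompact (plaq b) ∧ IsPreconnected (plaq b)) ∧
  ∀ (S : Finset Bond) (b : Bond), plaq b ⊆ (⋃ c ∈ S, plaq c) → b ∈ S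

/-- FGR: the part of the interface in the box and the adjacent sites is connected and contains
all bonds which are connected to the root in this part -/
def FGRStmt : Prop := ∀ (N : ℕ) (A : Finset Site), 1 ≤ N →
  {b | b ∈ Gam N A ∧ lo b ∈ Vbar N ∧ hi b ∈ Vbar N} =
    {b | Rch {c | c ∈ bd (Pl N A) ∧ lo c ∈ Vbar N ∧ hi c ∈ Vbar N} (rt N) b}

/-- TOP: the topological interface -/
def TOPStmt : Prop := ∀ (N : ℕ) (A : Finset Site), 1 ≤ N →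
  Gamma N A = ⋃ b ∈ {b | b ∈ Gam N A ∧ lo b ∈ Vbar N ∧ hi b ∈ Vbar N}, plaq b

/-- BLW: the sites below the interface -/
def BLWStmt : Prop := ∀ (N : ℕ) (A : Finset Site), 1 ≤ N → below N A = Dp N A ∧
  ∀ b : Bond, plaq b ⊆ Gamma N A ↔ b ∈ Gam N A ∧ lo b ∈ Vbar N ∧ hi b ∈ Vbar N

/-- LIT: probabilities -/
def LITStmt : Prop := ∀ (β : ℝ) (N : ℕ) (m : ℤ) (S : Finset Site → Prop),
  prob β N m S = ZZ β N ((Cf N m).filter (fun A => S A)) / ZZ β N (Cf N m)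

/-- NEA: the attainable values of the magnetisation -/
def NEAStmt : Prop := ∀ (N : ℕ) (b : ℝ) (m : ℤ), 1 ≤ N → 0 ≤ b → b ≤ 1 →
  IsNearest N (b * (N : ℝ) ^ 3) m → |m| ≤ 2 * (N : ℤ) ^ 3 ∧ (Cf N m).Nonempty

/-- T1: the density theorem -/
def T1Stmt : Prop := ∃ β₀ δ : ℝ, 0 < δ ∧ ∀ β ≥ β₀, ∀ b : ℝ, 0 ≤ b → b ≤ 1 → ∀ m : ℕ → ℤ,
  (∀ N, IsNearest N (b * (N : ℝ) ^ 3) (m N)) →
  Tendsto (fun N => prob β N (m N) (fun A => Dense δ ((Nat.log 2 N + 1) ^ 6) N A)) atTop (𝓝 1)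

/-- SUR: the surface of a region is compact and contains the boundary curve -/
def SURStmt : Prop := ∀ K : Set E3, MeasurableSet K → IsCompact (surface K) ∧
  ∀ y ∈ Qc, y 2 = 0 → (|y 0| = 1 ∨ |y 1| = 1) → y ∈ surface K

/-- HD1: the surface is near the interface if the volume between them is small -/
def HD1Stmt : Prop := ∀ K : Set E3, MeasurableSet K → ∀ ε : ℝ, 0 < ε → ∃ η : ENNReal, 0 < η ∧
  ∃ N₀ : ℕ, ∀ N ≥ N₀, ∀ A ⊆ Vb N, vdist N A K ≤ η →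
    ∀ y ∈ surface K, ∃ p ∈ (N : ℝ)⁻¹ • Gamma N A, dist y p ≤ ε

/-- ZON: a cube which does not meet the surface -/
def ZONStmt : Prop := ∀ K : Set E3, MeasurableSet K → ∀ (p : E3) (ε : ℝ), 0 < ε →
  (∀ i, |p i| ≤ 1 + ε / 2) → (∀ y ∈ surface K, ∃ i, ε < |y i - p i|) →
  volume ({y : E3 | ∀ i, |y i - p i| ≤ ε / 2} ∩ extend K) = 0 ∨
    volume ({y : E3 | ∀ i, |y i - p i| ≤ ε / 2} \ extend K) = 0

/-- HD2: the interface is near the surface if the volume between them is small and the interface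
has the density property -/
def HD2Stmt : Prop := ∀ K : Set E3, MeasurableSet K → ∀ (ε δ : ℝ), 0 < ε → 0 < δ →
  ∃ η : ENNReal, 0 < η ∧ ∃ N₀ : ℕ, ∀ N ≥ N₀, ∀ A ⊆ Vb N,
    Dense δ ((Nat.log 2 N + 1) ^ 6) N A → vdist N A K ≤ η →
    ∀ p ∈ (N : ℝ)⁻¹ • Gamma N A, ∃ y ∈ surface K, dist p y ≤ ε

/-- T2: convergence of the region below the interface implies convergence of the interface -/
def T2Stmt : Prop := ∃ β₀ : ℝ, ∀ β ≥ β₀, ∀ b : ℝ, 0 ≤ b → b ≤ 1 → ∀ m : ℕ → ℤ,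
  (∀ N, IsNearest N (b * (N : ℝ) ^ 3) (m N)) → ∀ K : Set E3, MeasurableSet K →
  (∀ η : ENNReal, 0 < η →
    Tendsto (fun N => prob β N (m N) (fun A => η < vdist N A K)) atTop (𝓝 0)) →
  ∀ ε : ℝ, 0 < ε → Tendsto (fun N => prob β N (m N)
    (fun A => ε < Metric.hausdorffDist ((N : ℝ)⁻¹ • Gamma N A) (surface K))) atTop (𝓝 0)

end Pool.ISH
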