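import Pool.Agent.H40.ISH.Core2
import Pool.Agent.H40.ISH.Stmts

/-!
Project ISH, part 2: the limit shape at low temperature. Definitions and statements.
-/

set_option linter.unusedVariables false

namespace Pool.ISH

open MeasureTheory Filter Topology
open scoped Classical Pointwise

/-! ### definitions -/

/-- the region below the height `b / 8` -/
def Kb (b : ℝ) : Set E3 := {y | y 2 ≤ b / 8}

/-- outside of the box the set is the lower half space -/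
def Out (N : ℕ) (P : Set Site) : Prop := ∀ x, x ∉ Vb N → (x ∈ P ↔ x 2 ≤ 0)

/-- the number of boundary bonds of `P` (with an end in the box) -/
noncomputable def Ec (N : ℕ) (P : Set Site) : ℕ := ((BV N).filter (fun b => b ∈ bd P)).card

/-- the number of vertical boundary bonds of `P` -/
noncomputable def Vc (N : ℕ) (P : Set Site) : ℕ :=
  ((BV N).filter (fun b => b.2 = 2 ∧ b ∈ bd P)).card

/-- the number of horizontal boundary bonds of `P` at height `z` -/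
noncomputable def Hc (N : ℕ) (P : Set Site) (z : ℤ) : ℕ :=
  ((BV N).filter (fun b => b.2 ≠ 2 ∧ b.1 2 = z ∧ b ∈ bd P)).card

/-- the number of sites of `P` in the box at height `z` -/
noncomputable def Tc (N : ℕ) (P : Set Site) (z : ℤ) : ℕ :=
  ((Vb N).filter (fun x => x 2 = z ∧ x ∈ P)).card

/-- the sites of the box with height at most `k` -/
noncomputable def Sl (N : ℕ) (k : ℤ) : Finset Site := (Vb N).filter (fun x => x 2 ≤ k)

/-- corners of a cube of side `a` at the top and at the bottom of the box -/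
def cor (N a : ℕ) (s : Bool) : Site :=
  if s then ![-(N : ℤ), -(N : ℤ), (N : ℤ) - a + 1] else ![-(N : ℤ), -(N : ℤ), -(N : ℤ)]

/-- the sites of the box where `P` differs from the lower half space of height `b N / 8` -/
noncomputable def Dis (N : ℕ) (b : ℝ) (P : Set Site) : Finset Site :=
  (Vb N).filter (fun x => ¬ (x ∈ P ↔ ((x 2 : ℤ) : ℝ) ≤ b * N / 8))

/-! ### geometry -/

/-- SUM: boundary bonds are vertical or horizontal at one of the heights of the box -/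
def SUMStmt : Prop := ∀ (N : ℕ) (P : Set Site),
  Ec N P = Vc N P + ∑ z ∈ Finset.Icc (-(N : ℤ)) N, Hc N P z

/-- VRT: there is a vertical boundary bond in every column of the box, and there are three in
the columns which contain a site in `Pᶜ` with positive height below a site in `P` -/
def VRTStmt : Prop := ∀ (N : ℕ) (P : Set Site), Out N P → (2 * N + 1) ^ 2 ≤ Vc N P ∧
  ∀ z z' : ℤ, 1 ≤ z → z < z' → z' ≤ N → (2 * N + 1) ^ 2 +
    2 * ((Vb N).filter (fun x => x 2 = z ∧ x ∉ P ∧ Function.update x 2 z' ∈ P)).card ≤ Vc N P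

/-- PER: the isoperimetric inequality in the layers of the box -/
def PERStmt : Prop := ∀ (N : ℕ) (P : Set Site), Out N P →
  (∀ z : ℤ, 1 ≤ z → z ≤ N → 16 * Tc N P z ≤ Hc N P z ^ 2) ∧
  ∀ z : ℤ, -(N : ℤ) ≤ z → z ≤ 0 → 16 * Tc N Pᶜ z ≤ Hc N P z ^ 2

/-- ISW: the isoperimetric inequality for subsets of the box -/
def ISWStmt : Prop := ∀ (N : ℕ) (W : Finset Site), W ⊆ Vb N →
  6 * W.card ≤ (2 * N + 1) * (bd (W : Set Site)).ncard

/-- HDL: a lower bound for the boundary -/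
def HDLStmt : Prop := ∀ (N : ℕ) (P : Set Site), Out N P →
  (2 * N + 1) ^ 3 + 4 * ((Vb N).filter (fun x => x ∈ P)).card ≤
    (2 * N + 1) * Ec N P + 4 * (N + 1) * (2 * N + 1) ^ 2

/-- LVS: an inequality for the densities `f z` of the layers with positive height; `g` is the sum
of the densities of the complement in the layers with non-positive heights -/
def LVSStmt : Prop := ∀ ε : ℝ, 0 < ε → ∃ η : ℝ, 0 < η ∧ ∃ N₀ : ℕ, ∀ N ≥ N₀, ∀ b : ℝ, 0 ≤ b → b ≤ 1 →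
  ∀ (f : ℕ → ℝ) (g : ℝ), (∀ z, 0 ≤ f z ∧ f z ≤ 1) → 0 ≤ g →
  4 * (2 * N + 1) * (∑ z ∈ Finset.Icc 1 N, Real.sqrt (f z) + g) ≤ (b + η) * (N : ℝ) ^ 2 →
  (b / 8 - η) * N ≤ ∑ z ∈ Finset.Icc 1 N, f z - g →
  (∀ z z' : ℕ, 1 ≤ z → z < z' → z' ≤ N → ¬ (f z ≤ 1 / 4 ∧ 3 / 4 ≤ f z')) →
  g ≤ ε * N ∧
  ∑ z ∈ Finset.Icc 1 N, |f z - (if (z : ℝ) ≤ b * N / 8 then 1 else 0)| ≤ ε * N

/-- STB: stability of the zero temperature shape -/
def STBStmt : Prop := ∀ ε : ℝ, 0 < ε → ∃ η : ℝ, 0 < η ∧ ∃ N₀ : ℕ, ∀ N ≥ N₀, ∀ b : ℝ, 0 ≤ b → b ≤ 1 →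
  ∀ P : Set Site, Out N P → (Ec N P : ℝ) ≤ (4 + b + η) * (N : ℝ) ^ 2 →
  (4 + b / 2 - η) * (N : ℝ) ^ 3 ≤ (((Vb N).filter (fun x => x ∈ P)).card : ℝ) →
  ((Dis N b P).card : ℝ) ≤ ε * (N : ℝ) ^ 3

/-- ESL: the energy of the flat configuration at height `k` -/
def ESLStmt : Prop := ∀ (N k : ℕ), k ≤ N →
  en N (Sl N k) ≤ (2 * N + 1) ^ 2 + 4 * (2 * N + 1) * k ∧
  (Sl N k).card = (N + 1 + k) * (2 * N + 1) ^ 2

/-! ### configurations -/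

/-- FLK: the configuration `Ψ (Lam N A)` with the interface and the large contours of `A` -/
def FLKStmt : Prop := ∀ N : ℕ, ∃ Ψ : Finset Bond → Finset Site, ∀ A ⊆ Vb N,
  Ψ (Lam N A) ⊆ Vb N ∧ (symmDiff A (Ψ (Lam N A))).card ≤ sm N A ∧
  (bd ((symmDiff A (Ψ (Lam N A)) : Finset Site) : Set Site)).ncard + lg N A ≤ en N A ∧
  en N (Ψ (Lam N A)) = lg N A ∧
  ∃ W ⊆ Vb N, Pl N (Ψ (Lam N A)) = symmDiff (Dp N A) (W : Set Site) ∧
    (bd (W : Set Site)).ncard + Ec N (Dp N A) = lg N A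

/-- NLA: the number of possible values of `Lam` -/
def NLAStmt : Prop := ∃ C : ℕ, ∀ N s : ℕ, 1 ≤ N →
  (((Vb N).powerset.image (Lam N)).filter (fun L => L.card ≤ s)).card ≤ 2 ^ (C * (N + s))

/-- TYS: the Peierls estimate for the size of the interface and the large contours -/
def TYSStmt : Prop := ∃ C : ℝ, 0 < C ∧ ∀ β ≥ C, ∀ N : ℕ, 1 ≤ N → ∀ s : ℝ,
  ZZ β N ((Vb N).powerset.filter (fun A => s ≤ (lg N A : ℝ))) ≤
    Real.exp (2 * β * (2 * (N : ℝ) + 1) ^ 2 + C * N - (2 * β - C) * s) *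
      ZZ β N (Vb N).powerset

/-- ADJ: adjusting the number of plus sites -/
def ADJStmt : Prop := ∀ (N a n : ℕ) (k : ℤ) (B : Finset Site), B ⊆ Vb N → 0 ≤ k → k + a ≤ N →
  1 ≤ a → 3 * ((symmDiff B (Sl N k)).card : ℤ) + |((Sl N k).card : ℤ) - n| ≤ (a : ℤ) ^ 3 →
  ∃ s : Bool, ∃ j ≤ a ^ 3, seg (cor N a s) a j ⊆ Vb N ∧
    (symmDiff B (seg (cor N a s) a j)).card = n

/-- CLS: the sharp lower bound for the canonical partition function -/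
def CLSStmt : Prop := ∀ η : ℝ, 0 < η → ∃ β₀ : ℝ, ∀ β ≥ β₀, ∃ N₀ : ℕ, ∀ N ≥ N₀,
  ∀ b : ℝ, 0 ≤ b → b ≤ 1 → ∀ m : ℤ, |(m : ℝ) - b * (N : ℝ) ^ 3| ≤ 2 → (Cf N m).Nonempty →
  ZZ β N (Vb N).powerset ≤ Real.exp (2 * β * (b + η) * (N : ℝ) ^ 2) * ZZ β N (Cf N m)

/-- LGC: the size of the contours in the canonical ensemble -/
def LGCStmt : Prop := ∀ η : ℝ, 0 < η → ∀ θ : ℝ, 0 < θ → ∃ β₀ : ℝ, ∀ β ≥ β₀, ∃ N₀ : ℕ, ∀ N ≥ N₀,
  ∀ b : ℝ, 0 ≤ b → b ≤ 1 → ∀ m : ℤ, |(m : ℝ) - b * (N : ℝ) ^ 3| ≤ 2 → (Cf N m).Nonempty →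
  ZZ β N ((Cf N m).filter (fun A => ¬ ((lg N A : ℝ) ≤ (4 + b + η) * (N : ℝ) ^ 2 ∧
    (sm N A : ℝ) ≤ θ * (N : ℝ) ^ 3))) ≤ 1 / N * ZZ β N (Cf N m)

/-- SHP: the shape of the interface of a configuration with nearly minimal contours -/
def SHPStmt : Prop := ∀ ε : ℝ, 0 < ε → ∃ η θ : ℝ, 0 < η ∧ 0 < θ ∧ ∃ N₀ : ℕ, ∀ N ≥ N₀,
  ∀ b : ℝ, 0 ≤ b → b ≤ 1 → ∀ m : ℤ, |(m : ℝ) - b * (N : ℝ) ^ 3| ≤ 2 → ∀ A ∈ Cf N m,
  (lg N A : ℝ) ≤ (4 + b + η) * (N : ℝ) ^ 2 → (sm N A : ℝ) ≤ θ * (N : ℝ) ^ 3 →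
  ((Dis N b (Dp N A)).card : ℝ) ≤ ε * (N : ℝ) ^ 3

/-! ### the statement in space -/

/-- VOL: the volume between the rescaled interface and the plane -/
def VOLStmt : Prop := ∀ (N : ℕ) (A : Finset Site) (b : ℝ), 1 ≤ N → 0 ≤ b → b ≤ 1 →
  vdist N A (Kb b) ≤ ENNReal.ofReal (((Dis N b (below N A)).card : ℝ) / (N : ℝ) ^ 3 + 4 / N)

/-- SFB: the surface of the region `Kb b` -/
def SFBStmt : Prop := ∀ b : ℝ, 0 ≤ b → b ≤ 1 → surface (Kb b) = shape b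

/-- HDU: Hausdorff distance and volume, uniformly in `b` -/
def HDUStmt : Prop := ∀ ε : ℝ, 0 < ε → ∀ δ : ℝ, 0 < δ → ∃ η : ENNReal, 0 < η ∧ ∃ N₀ : ℕ,
  ∀ N ≥ N₀, ∀ b : ℝ, 0 ≤ b → b ≤ 1 → ∀ A ⊆ Vb N, Dense δ ((Nat.log 2 N + 1) ^ 6) N A →
  vdist N A (Kb b) ≤ η → Metric.hausdorffDist ((N : ℝ)⁻¹ • Gamma N A) (shape b) ≤ ε

/-- NEB: attainable values of the magnetisation nearest to `b N ^ 3` -/
def NEBStmt : Prop := ∀ (N : ℕ) (b : ℝ) (m : ℤ), 1 ≤ N → 0 ≤ b → b ≤ 1 →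
  IsNearest N (b * (N : ℝ) ^ 3) m → |(m : ℝ) - b * (N : ℝ) ^ 3| ≤ 2 ∧ (Cf N m).Nonempty

/-- T4: the interface is near the zero temperature shape at low temperature -/
def T4Stmt : Prop := ∀ ε : ℝ, 0 < ε → ∃ β₀ : ℝ, ∀ β ≥ β₀, ∀ b : ℝ, 0 ≤ b → b ≤ 1 →
  ∀ m : ℕ → ℤ, (∀ N, IsNearest N (b * (N : ℝ) ^ 3) (m N)) →
  Tendsto (fun N => prob β N (m N)
    (fun A => ε < Metric.hausdorffDist ((N : ℝ)⁻¹ • Gamma N A) (shape b))) atTop (𝓝 0)

end Pool.ISH
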